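import Mathlib

/-! Infinitesimal rigidity and capping (MP_65c98c_al): no irreducible representation has the
symplectic representation inside its adjoint representation. -/

set_option autoImplicit false

namespace Pool.Agent.Helper32.Cap

open Module

/-- Burnside's theorem -/
theorem burnside {V : Type} [AddCommGroup V] [Module ℂ V] [FiniteDimensional ℂ V] [Nontrivial V]
    (A : Subalgebra ℂ (Module.End ℂ V))
    (hirr : ∀ F : Submodule ℂ V, (∀ a ∈ A, ∀ v ∈ F, a v ∈ F) → F = ⊥ ∨ F = ⊤) : A = ⊤ := by
  classical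
  haveI hst : IsScalarTower ℂ A V := ⟨fun c a v => rfl⟩
  haveI hsm : IsSimpleModule A V := by
    rw [isSimpleModule_iff]
    refine @IsSimpleOrder.mk _ _ _ ?_ ?_
    · exact inferInstance
    · intro F
      have h := hirr (F.restrictScalars ℂ) (fun a ha v hv => F.smul_mem (⟨a, ha⟩ : A) hv)
      rcases h with h | h
      · left
        exact (Submodule.restrictScalars_eq_bot_iff ℂ A V).1 h
      · right
        exact (Submodule.restrictScalars_eq_top_iff ℂ A V).1 h
  have hsurj := (IsSimpleModule.algebraMap_end_bijective_of_isAlgClosed (A := A) (V := V) ℂ).2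
  rw [eq_top_iff]
  intro N _
  obtain ⟨s, hs⟩ := (Module.finite_def.1 (inferInstance : Module.Finite ℂ V))
  -- `N` commutes with the endomorphisms of the simple module
  obtain ⟨f, hf⟩ : ∃ f : Module.End (Module.End A V) V, ∀ v, f v = N v := by
    refine ⟨{ toFun := N, map_add' := N.map_add, map_smul' := ?_ }, fun v => rfl⟩
    intro e v
    obtain ⟨c, rfl⟩ := hsurj e
    have h1 : ∀ w : V, ((algebraMap ℂ (Module.End A V)) c) • w = c • w := fun w => by
      rw [Module.End.smul_def, Module.algebraMap_end_apply]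
    simp only [RingHom.id_apply]
    rw [h1, h1, N.map_smul]
  obtain ⟨r, hr⟩ := jacobson_density f s
  have hN : N = (r : Module.End ℂ V) := by
    refine LinearMap.ext_on hs ?_
    intro m hm
    have := hr m hm
    rw [hf] at this
    exact this
  rw [hN]
  exact r.2

variable {G : Type} [Group G] {V H : Type} [AddCommGroup V] [Module ℂ V] [FiniteDimensional ℂ V]
  [AddCommGroup H] [Module ℂ H] [FiniteDimensional ℂ H]

/-- from the powers `t ^ (k + 1)` back to `1` -/
theorem tr_of_pow (φ : Module.End ℂ V →ₗ[ℂ] ℂ) (M : Module.End ℂ V) (hM : IsUnit M)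
    (h : ∀ k : ℕ, φ (M ^ (k + 1)) = 0) : φ 1 = 0 := by
  have h1 : ∀ q : Polynomial ℂ, φ (M * Polynomial.aeval M q) = 0 := by
    intro q
    rw [Polynomial.aeval_eq_sum_range, Finset.mul_sum, map_sum]
    refine Finset.sum_eq_zero fun i _ => ?_
    rw [mul_smul_comm, ← pow_succ', map_smul, h, smul_zero]
  have h2 : Polynomial.aeval M M.charpoly = 0 := LinearMap.aeval_self_charpoly M
  rw [← Polynomial.X_mul_divX_add M.charpoly] at h2
  simp only [map_add, map_mul, Polynomial.aeval_X, Polynomial.aeval_C] at h2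
  have h3 := congrArg φ h2
  rw [map_add, h1, zero_add, map_zero, Algebra.algebraMap_eq_smul_one, map_smul, smul_eq_mul] at h3
  rcases mul_eq_zero.1 h3 with h4 | h4
  · exfalso
    have h5 := LinearMap.det_eq_sign_charpoly_coeff M
    rw [h4, mul_zero] at h5
    have h6 := hM.map (LinearMap.det (M := V) (A := ℂ))
    rw [h5] at h6
    exact not_isUnit_zero h6
  · exact h4

/-- trace form -/
theorem eq_zero_of_trace (A : Module.End ℂ V)
    (h : ∀ N : Module.End ℂ V, LinearMap.trace ℂ V (A * N) = 0) : A = 0 := by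
  ext v
  rw [LinearMap.zero_apply, ← Module.forall_dual_apply_eq_zero_iff ℂ]
  intro φ
  have h1 := h (φ.smulRight v)
  have h2 : A * (φ.smulRight v) = φ.smulRight (A v) := by
    ext w
    simp [Module.End.mul_apply]
  rw [h2, LinearMap.trace_smulRight] at h1
  exact h1

/-- a linear functional is `ω (·, x)` -/
theorem exists_dual (ω : H →ₗ[ℂ] H →ₗ[ℂ] ℂ) (hnd : ∀ x, (∀ y, ω y x = 0) → x = 0)
    (φ : Module.Dual ℂ H) : ∃ x, ∀ y, ω y x = φ y := by
  have hinj : Function.Injective ω.flip := by
    rw [injective_iff_map_eq_zero]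
    intro x hx
    refine hnd x fun y => ?_
    have := LinearMap.congr_fun hx y
    rwa [LinearMap.flip_apply, LinearMap.zero_apply] at this
  have hsurj : Function.Surjective ω.flip :=
    (LinearMap.injective_iff_surjective_of_finrank_eq_finrank
      (Subspace.dual_finrank_eq (K := ℂ) (V := H)).symm).1 hinj
  obtain ⟨x, hx⟩ := hsurj φ
  refine ⟨x, fun y => ?_⟩
  rw [← hx, LinearMap.flip_apply]

/-- the key step: a fixed vector which is not orthogonal to `a` -/
theorem exists_fixed (ω : H →ₗ[ℂ] H →ₗ[ℂ] ℂ) (hnd : ∀ x, (∀ y, ω y x = 0) → x = 0)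
    (s : Module.End ℂ H) (hs : ∀ x y, ω (s x) (s y) = ω x y) (hsurj : Function.Surjective s)
    (a : H) (ha : a ∉ LinearMap.range (s - 1)) : ∃ x, s x = x ∧ ω a x ≠ 0 := by
  obtain ⟨φ, hφ, hφ'⟩ := Submodule.exists_le_ker_of_notMem ha
  obtain ⟨x, hx⟩ := exists_dual ω hnd φ
  refine ⟨x, ?_, by rw [hx]; exact hφ⟩
  have h1 : ∀ y, ω (s y) (s x - x) = 0 := by
    intro y
    have h2 : ω ((s - 1) y) x = 0 := by
      rw [hx]
      exact hφ' (LinearMap.mem_range_self _ y)
    rw [LinearMap.sub_apply, Module.End.one_apply, map_sub, LinearMap.sub_apply] at h2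
    rw [map_sub, hs]
    exact (sub_eq_zero.1 h2 ▸ sub_self _)
  have h3 : s x - x = 0 := by
    refine hnd _ fun z => ?_
    obtain ⟨y, rfl⟩ := hsurj z
    exact h1 y
  exact sub_eq_zero.1 h3

/-- **Key lemma.** An irreducible representation has no subquotient ... in its adjoint
representation: every equivariant map `H → End V` is zero. -/
theorem key (ρ : G →* Module.End ℂ V) (σ : G →* Module.End ℂ H)
    (hρ : ∀ F : Submodule ℂ V, (∀ g, ∀ v ∈ F, ρ g v ∈ F) → F = ⊥ ∨ F = ⊤)
    (ω : H →ₗ[ℂ] H →ₗ[ℂ] ℂ) (hnd : ∀ x, (∀ y, ω y x = 0) → x = 0)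
    (hσ : ∀ g x y, ω (σ g x) (σ g y) = ω x y)
    (A : Set H) (hA : Submodule.span ℂ A = ⊤)
    (ht : ∀ a ∈ A, ω a a = 0 ∧ ∃ (t : G) (c : ℂ), c ≠ 0 ∧ ∀ x, σ t x = x + (c * ω a x) • a)
    (f : H →ₗ[ℂ] Module.End ℂ V) (hf : ∀ g x, f (σ g x) * ρ g = ρ g * f x) : f = 0 := by
  classical
  rcases subsingleton_or_nontrivial V with hV | hV
  · ext x v
    exact Subsingleton.elim _ _
  have hinv : ∀ g : G, σ g * σ g⁻¹ = 1 := fun g => by rw [← map_mul, mul_inv_cancel, map_one]
  have hinvρ : ∀ g : G, IsUnit (ρ g) := fun g => (Group.isUnit g).map ρ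
  have hsur : ∀ g : G, Function.Surjective (σ g) := fun g y =>
    ⟨σ g⁻¹ y, by rw [← Module.End.mul_apply, hinv, Module.End.one_apply]⟩
  -- powers of the transvections
  have hpow : ∀ (a : H) (t : G) (c : ℂ), ω a a = 0 → (∀ x, σ t x = x + (c * ω a x) • a) →
      ∀ (k : ℕ) (x : H), σ (t ^ k) x = x + (k * c * ω a x) • a := by
    intro a t c haa h k
    induction k with
    | zero => intro x; simp
    | succ k ih =>
      intro x
      rw [pow_succ, map_mul, Module.End.mul_apply, h, ih, map_add, map_smul, haa]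
      push_cast
      simp only [smul_eq_mul, mul_zero, add_zero]
      rw [add_assoc, ← add_smul]
      congr 2
      ring
  have hS : ∀ (n : ℕ) (g : G), finrank ℂ (LinearMap.ker (σ g - 1)) = n →
      ∀ x, LinearMap.trace ℂ V (f x * ρ g) = 0 := by
    intro n
    induction n using Nat.strong_induction_on with
    | _ n ih =>
      intro g hg
      by_cases hker : LinearMap.ker (σ g - 1) = ⊥
      · intro x
        have hsj : Function.Surjective (⇑(σ g - 1) : H → H) :=
          LinearMap.injective_iff_surjective.1 (LinearMap.ker_eq_bot.1 hker)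
        obtain ⟨y, rfl⟩ := hsj x
        rw [LinearMap.sub_apply, Module.End.one_apply, map_sub, sub_mul, hf, map_sub,
          LinearMap.trace_mul_comm, sub_self]
      · -- a transvection with direction outside the image of `σ g - 1`
        have hrange : LinearMap.range (σ g - 1) ≠ ⊤ := fun h => hker
          (LinearMap.ker_eq_bot.2 (LinearMap.injective_iff_surjective.2 (LinearMap.range_eq_top.1 h)))
        obtain ⟨a, haA, ha⟩ : ∃ a ∈ A, a ∉ LinearMap.range (σ g - 1) := by
          by_contra hcon
          push Not at hcon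
          apply hrange
          rw [eq_top_iff, ← hA, Submodule.span_le]
          exact hcon
        obtain ⟨haa, t, c, hc, htx⟩ := ht a haA
        obtain ⟨x₀, hx₀, hx₀'⟩ := exists_fixed ω hnd (σ g) (hσ g) (hsur g) a ha
        have hlt : ∀ k : ℕ, LinearMap.ker (σ (g * t ^ (k + 1)) - 1) < LinearMap.ker (σ g - 1) := by
          intro k
          have hcoef : ((k + 1 : ℕ) : ℂ) * c ≠ 0 :=
            mul_ne_zero (Nat.cast_ne_zero.2 (Nat.succ_ne_zero k)) hc
          have hmem : ∀ x, x ∈ LinearMap.ker (σ (g * t ^ (k + 1)) - 1) →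
              ω a x = 0 ∧ σ g x = x := by
            intro x hx
            rw [LinearMap.mem_ker, LinearMap.sub_apply, Module.End.one_apply, map_mul,
              Module.End.mul_apply, hpow a t c haa htx, sub_eq_zero] at hx
            by_cases h0 : ω a x = 0
            · refine ⟨h0, ?_⟩
              rwa [h0, mul_zero, zero_smul, add_zero] at hx
            · exfalso
              apply ha
              obtain ⟨y, hy⟩ : ∃ y, y = x + (((k + 1 : ℕ) : ℂ) * c * ω a x) • a := ⟨_, rfl⟩
              rw [← hy] at hx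
              have h2 : (σ g - 1) y = -((((k + 1 : ℕ) : ℂ) * c * ω a x) • a) := by
                rw [LinearMap.sub_apply, Module.End.one_apply, hx, hy]
                abel
              have h3 : (((k + 1 : ℕ) : ℂ) * c * ω a x) ≠ 0 := mul_ne_zero hcoef h0
              refine ⟨(-(((k + 1 : ℕ) : ℂ) * c * ω a x)⁻¹) • y, ?_⟩
              rw [map_smul, h2, smul_neg, neg_smul, neg_neg, smul_smul, inv_mul_cancel₀ h3,
                one_smul]
          refine lt_of_le_of_ne (fun x hx => ?_) (fun heq => ?_)
          · rw [LinearMap.mem_ker, LinearMap.sub_apply, Module.End.one_apply,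
              (hmem x hx).2, sub_self]
          · have : x₀ ∈ LinearMap.ker (σ g - 1) := by
              rw [LinearMap.mem_ker, LinearMap.sub_apply, Module.End.one_apply, hx₀, sub_self]
            rw [← heq] at this
            exact hx₀' (hmem x₀ this).1
        intro x
        have h5 : ∀ k : ℕ, LinearMap.trace ℂ V (f x * ρ (g * t ^ (k + 1))) = 0 := fun k =>
          ih _ (by rw [← hg]; exact Submodule.finrank_lt_finrank_of_lt (hlt k)) _ rfl x
        obtain ⟨φ, hφ⟩ : ∃ φ : Module.End ℂ V →ₗ[ℂ] ℂ, ∀ N, φ N =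
            LinearMap.trace ℂ V (f x * ρ g * N) :=
          ⟨(LinearMap.trace ℂ V).comp (LinearMap.mulLeft ℂ (f x * ρ g)), fun N => rfl⟩
        have h6 := tr_of_pow φ (ρ t) (hinvρ t) (fun k => by
          rw [hφ, mul_assoc, ← map_pow, ← map_mul]
          exact h5 k)
        rw [hφ, mul_one] at h6
        exact h6
  -- Burnside
  have htop : Algebra.adjoin ℂ (Set.range ρ) = ⊤ := by
    apply burnside
    intro F hF
    exact hρ F fun g v hv => hF _ (Algebra.subset_adjoin ⟨g, rfl⟩) v hv
  ext1 x
  rw [LinearMap.zero_apply]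
  apply eq_zero_of_trace
  intro N
  have hN : N ∈ Submodule.span ℂ (Submonoid.closure (Set.range ρ) : Set (Module.End ℂ V)) := by
    rw [← Algebra.adjoin_eq_span, htop]
    exact Submodule.mem_top
  have hcl : Submonoid.closure (Set.range ρ) = MonoidHom.mrange ρ := by
    rw [← MonoidHom.coe_mrange, Submonoid.closure_eq]
  rw [hcl] at hN
  induction hN using Submodule.span_induction with
  | mem N hN =>
    obtain ⟨g, rfl⟩ := hN
    exact hS _ g rfl x
  | zero => simp
  | add a b _ _ ha hb => rw [mul_add, map_add, ha, hb, add_zero]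
  | smul c a _ ha => rw [mul_smul_comm, map_smul, ha, smul_zero]

end Pool.Agent.Helper32.Cap
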