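import Pool.Agent.Helper32.Cap

/-! Infinitesimal rigidity and finite covers (MP_65c98c_al): the homology of a finite cover spanned by
lifts of simple closed curves does not occur in the adjoint representation of an irreducible
representation. -/

set_option autoImplicit false

namespace Pool.Agent.Helper32.Cap

open Module

variable {G : Type} [Group G] {V : Type} [AddCommGroup V] [Module ℂ V] [FiniteDimensional ℂ V]
  {W : Type} [AddCommGroup W] [Module ℝ W] [FiniteDimensional ℝ W]

/-- perturbation of a singular map -/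
theorem ker_small (A₀ B : Module.End ℝ W) (x₀ : W) (hx₀ : A₀ x₀ = 0) (ℓ : W →ₗ[ℝ] ℝ)
    (hℓ : ∀ w, ℓ (A₀ w) = 0) (hq : ℓ (B x₀) ≠ 0) :
    ∃ k₀ : ℕ, ∀ k : ℕ, k₀ ≤ k →
      finrank ℝ (LinearMap.ker (A₀ + (k : ℝ) • B)) < finrank ℝ (LinearMap.ker A₀) := by
  classical
  obtain ⟨C, hC⟩ := Submodule.exists_isCompl (LinearMap.ker A₀)
  -- a left inverse of `A₀` on `C`
  obtain ⟨L, hL⟩ : ∃ L : W →ₗ[ℝ] W, ∀ c ∈ C, L (A₀ c) = c := by
    have hinj : LinearMap.ker (A₀.comp C.subtype) = ⊥ := by
      rw [LinearMap.ker_eq_bot']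
      intro c hc
      have h1 : (c : W) ∈ LinearMap.ker A₀ := hc
      have h2 := Submodule.disjoint_def.1 hC.disjoint (c : W) h1 c.2
      exact Subtype.ext h2
    obtain ⟨L, hL⟩ := (A₀.comp C.subtype).exists_leftInverse_of_injective hinj
    refine ⟨C.subtype.comp L, fun c hc => ?_⟩
    have := LinearMap.congr_fun hL ⟨c, hc⟩
    simp only [LinearMap.comp_apply, LinearMap.id_apply] at this
    have h3 := congrArg (C.subtype) this
    exact h3
  obtain ⟨q, hqd⟩ : ∃ q : ℝ, q = ℓ (B x₀) := ⟨_, rfl⟩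
  rw [← hqd] at hq
  -- the operator whose eigenvalues are the exceptions
  obtain ⟨T, hT⟩ : ∃ T : Module.End ℝ W, ∀ w, T w = L (B (w - (ℓ (B w) / q) • x₀)) :=
    ⟨L.comp (B.comp (LinearMap.id - ((q⁻¹ • (ℓ.comp B)).smulRight x₀))), fun w => by
      simp [div_eq_inv_mul]⟩
  have hfin : {μ : ℝ | T.HasEigenvalue μ}.Finite := Module.End.finite_hasEigenvalue T
  have hfin2 : {k : ℕ | T.HasEigenvalue (-(1 / (k : ℝ)))}.Finite := by
    refine Set.Finite.preimage ?_ hfin (f := fun k : ℕ => -(1 / (k : ℝ)))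
    intro a _ b _ hab
    simp only [neg_inj, one_div, inv_inj, Nat.cast_inj] at hab
    exact hab
  obtain ⟨k₁, hk₁⟩ := hfin2.bddAbove
  refine ⟨k₁ + 1, fun k hk => ?_⟩
  have hk0 : (k : ℝ) ≠ 0 := Nat.cast_ne_zero.2 (by omega)
  have hne : ¬ T.HasEigenvalue (-(1 / (k : ℝ))) := by
    intro h
    have := hk₁ h
    omega
  have hx₀0 : x₀ ≠ 0 := by
    rintro rfl
    apply hq
    rw [hqd, map_zero, map_zero]
  have hx₀C : x₀ ∉ C := fun h => hx₀0 (Submodule.disjoint_def.1 hC.disjoint x₀ hx₀ h)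
  -- `U = C + ℝ x₀`
  have hdisj : Disjoint (LinearMap.ker (A₀ + (k : ℝ) • B)) (C ⊔ Submodule.span ℝ {x₀}) := by
    rw [Submodule.disjoint_def]
    intro u hu huU
    obtain ⟨c, hc, y, hy, rfl⟩ := Submodule.mem_sup.1 huU
    obtain ⟨s, rfl⟩ := Submodule.mem_span_singleton.1 hy
    rw [LinearMap.mem_ker, LinearMap.add_apply, LinearMap.smul_apply, map_add, map_smul, hx₀,
      smul_zero, add_zero] at hu
    have h1 : ℓ (B c) + s * q = 0 := by
      have h2 := congrArg ℓ hu
      rw [map_add, hℓ, map_smul, map_zero, zero_add, map_add, map_add, map_smul, map_smul, ← hqd,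
        smul_eq_mul, smul_eq_mul] at h2
      rcases mul_eq_zero.1 h2 with h3 | h3
      · exact absurd h3 hk0
      · exact h3
    have hs : s = -(ℓ (B c) / q) := by
      field_simp
      linarith
    have h4 : c = -((k : ℝ) • T c) := by
      have h5 := congrArg L hu
      rw [map_add, hL c hc, map_zero, map_smul] at h5
      rw [hT, show c - (ℓ (B c) / q) • x₀ = c + s • x₀ by rw [hs, neg_smul, sub_eq_add_neg]]
      exact eq_neg_of_add_eq_zero_left h5
    by_cases hc0 : c = 0
    · subst hc0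
      rw [map_zero, map_zero, zero_div, neg_zero] at hs
      rw [hs, zero_smul, add_zero]
    · exfalso
      apply hne
      apply Module.End.hasEigenvalue_of_hasEigenvector (x := c)
      refine ⟨?_, hc0⟩
      rw [Module.End.mem_eigenspace_iff]
      have h6 : (k : ℝ) • T c = -c := by rw [eq_neg_iff_add_eq_zero, add_comm]; exact add_eq_zero_iff_eq_neg.2 h4
      have h7 : T c = (k : ℝ)⁻¹ • ((k : ℝ) • T c) := by rw [smul_smul, inv_mul_cancel₀ hk0, one_smul]
      rw [h7, h6, smul_neg, neg_smul, one_div]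
  have hU : finrank ℝ C + 1 ≤ finrank ℝ (C ⊔ Submodule.span ℝ {x₀} : Submodule ℝ W) := by
    have : C < C ⊔ Submodule.span ℝ {x₀} := by
      refine lt_of_le_of_ne le_sup_left fun h => hx₀C ?_
      rw [h]
      exact Submodule.mem_sup_right (Submodule.mem_span_singleton_self x₀)
    exact Submodule.finrank_lt_finrank_of_lt this
  have h8 : finrank ℝ (LinearMap.ker A₀) + finrank ℝ C = finrank ℝ W :=
    Submodule.finrank_add_eq_of_isCompl hC
  have h9 : finrank ℝ (LinearMap.ker (A₀ + (k : ℝ) • B)) +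
      finrank ℝ (C ⊔ Submodule.span ℝ {x₀} : Submodule ℝ W) ≤ finrank ℝ W :=
    Submodule.finrank_add_finrank_le_of_disjoint hdisj
  omega

/-- **Key lemma**, unipotent elements of any rank. -/
theorem key2 (ρ : G →* Module.End ℂ V) (σ : G →* Module.End ℝ W)
    (hρ : ∀ F : Submodule ℂ V, (∀ g, ∀ v ∈ F, ρ g v ∈ F) → F = ⊥ ∨ F = ⊤)
    (ω : W →ₗ[ℝ] W →ₗ[ℝ] ℝ) (hσ : ∀ g x y, ω (σ g x) (σ g y) = ω x y)
    (ht : ∀ x : W, x ≠ 0 → ∃ t : G, (σ t - 1) * (σ t - 1) = 0 ∧ ω x ((σ t - 1) x) ≠ 0)
    (f : W →ₗ[ℝ] Module.End ℂ V) (hf : ∀ g x, f (σ g x) * ρ g = ρ g * f x) : f = 0 := by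
  classical
  rcases subsingleton_or_nontrivial V with hV | hV
  · ext x v
    exact Subsingleton.elim _ _
  have hinvρ : ∀ g : G, IsUnit (ρ g) := fun g => (Group.isUnit g).map ρ
  -- powers of a unipotent element
  have hpow : ∀ (t : G), (σ t - 1) * (σ t - 1) = 0 → ∀ k : ℕ,
      σ (t ^ k) = 1 + (k : ℝ) • (σ t - 1) := by
    intro t h k
    induction k with
    | zero => simp
    | succ k ih =>
      have h1 : σ t = 1 + (σ t - 1) := by abel
      rw [pow_succ, map_mul, ih]
      calc (1 + (k : ℝ) • (σ t - 1)) * σ t = (1 + (k : ℝ) • (σ t - 1)) * (1 + (σ t - 1)) := by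
            rw [← h1]
        _ = 1 + (σ t - 1) + (k : ℝ) • (σ t - 1) + (k : ℝ) • ((σ t - 1) * (σ t - 1)) := by
            rw [add_mul, mul_add, one_mul, one_mul, mul_add, mul_one, smul_mul_assoc]
            abel
        _ = _ := by
            rw [h, smul_zero, add_zero]
            push_cast
            rw [add_smul, one_smul]
            abel
  have hS : ∀ (n : ℕ) (g : G), finrank ℝ (LinearMap.ker (σ g - 1)) = n →
      ∀ x, LinearMap.trace ℂ V (f x * ρ g) = 0 := by
    intro n
    induction n using Nat.strong_induction_on with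
    | _ n ih =>
      intro g hg
      by_cases hker : LinearMap.ker (σ g - 1) = ⊥
      · intro x
        have hsj : Function.Surjective (⇑(σ g - 1) : W → W) :=
          LinearMap.injective_iff_surjective.1 (LinearMap.ker_eq_bot.1 hker)
        obtain ⟨y, rfl⟩ := hsj x
        rw [LinearMap.sub_apply, Module.End.one_apply, map_sub, sub_mul, hf, map_sub,
          LinearMap.trace_mul_comm, sub_self]
      · obtain ⟨x₀, hx₀, hx₀0⟩ := Submodule.exists_mem_ne_zero_of_ne_bot hker
        obtain ⟨t, ht1, ht2⟩ := ht x₀ hx₀0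
        have hx₀' : σ g x₀ = x₀ := by
          rw [LinearMap.mem_ker, LinearMap.sub_apply, Module.End.one_apply, sub_eq_zero] at hx₀
          exact hx₀
        obtain ⟨k₀, hk₀⟩ := ker_small (σ g - 1) (σ g * (σ t - 1)) x₀ hx₀ (ω x₀)
          (fun w => by
            rw [LinearMap.sub_apply, Module.End.one_apply, map_sub]
            nth_rewrite 1 [← hx₀']
            rw [hσ, sub_self])
          (by
            rw [Module.End.mul_apply]
            nth_rewrite 1 [← hx₀']
            rw [hσ]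
            exact ht2)
        have hstep : ∀ k : ℕ, k₀ ≤ k → ∀ x, LinearMap.trace ℂ V (f x * ρ (g * t ^ k)) = 0 := by
          intro k hk
          have h1 : σ (g * t ^ k) - 1 = (σ g - 1) + (k : ℝ) • (σ g * (σ t - 1)) := by
            rw [map_mul, hpow t ht1, mul_add, mul_one, mul_smul_comm]
            abel
          refine ih _ ?_ _ rfl
          rw [h1, ← hg]
          exact hk₀ k hk
        intro x
        obtain ⟨φ, hφ⟩ : ∃ φ : Module.End ℂ V →ₗ[ℂ] ℂ, ∀ N, φ N =
            LinearMap.trace ℂ V (f x * ρ g * N) :=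
          ⟨(LinearMap.trace ℂ V).comp (LinearMap.mulLeft ℂ (f x * ρ g)), fun N => rfl⟩
        have h6 := tr_of_pow φ (ρ (t ^ (k₀ + 1))) (hinvρ _) (fun k => by
          rw [hφ, mul_assoc, ← map_pow, ← map_mul, ← pow_mul]
          refine hstep _ ?_ x
          calc k₀ ≤ k₀ + 1 := Nat.le_succ _
            _ ≤ (k₀ + 1) * (k + 1) := Nat.le_mul_of_pos_right _ (Nat.succ_pos k))
        rw [hφ, mul_one] at h6
        exact h6
  -- Burnside
  have htop : Algebra.adjoin ℂ (Set.range ρ) = ⊤ := by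
    apply burnside
    intro F hF
    exact hρ F fun g v hv => hF _ (Algebra.subset_adjoin ⟨g, rfl⟩) v hv
  ext1 x
  rw [LinearMap.zero_apply]
  apply eq_zero_of_trace
  intro N
  have hN : N ∈ Submodule.span ℂ (Submonoid.closure (Set.range ρ) : Set (Module.End ℂ V)) := by
    rw [← Algebra.adjoin_eq_span, htop]
    exact Submodule.mem_top
  have hcl : Submonoid.closure (Set.range ρ) = MonoidHom.mrange ρ := by
    rw [← MonoidHom.coe_mrange, Submonoid.closure_eq]
  rw [hcl] at hN
  induction hN using Submodule.span_induction with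
  | mem N hN =>
    obtain ⟨g, rfl⟩ := hN
    exact hS _ g rfl x
  | zero => simp
  | add a b _ _ ha hb => rw [mul_add, map_add, ha, hb, add_zero]
  | smul c a _ ha => rw [mul_smul_comm, map_smul, ha, smul_zero]

end Pool.Agent.Helper32.Cap
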