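import Pool.Agent.Helper32.Cap2

/-! Infinitesimal rigidity and finite covers (MP_65c98c_al): crossed homomorphisms. -/

set_option autoImplicit false

namespace Pool.Agent.Helper32.Cap

open Module Matrix

variable {G : Type} [Group G] {V : Type} [AddCommGroup V] [Module ℂ V] [FiniteDimensional ℂ V]

/-- crossed homomorphisms to the adjoint representation -/
def Crossed (ρ : G →* Module.End ℂ V) (z : G → Module.End ℂ V) : Prop :=
  ∀ g h, z (g * h) = z g + ρ g * z h * ρ g⁻¹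

section crossed

variable {ρ : G →* Module.End ℂ V} {z : G → Module.End ℂ V}

theorem rho_inv (ρ : G →* Module.End ℂ V) (g : G) : ρ g * ρ g⁻¹ = 1 := by
  rw [← map_mul, mul_inv_cancel, map_one]

theorem rho_inv' (ρ : G →* Module.End ℂ V) (g : G) : ρ g⁻¹ * ρ g = 1 := by
  rw [← map_mul, inv_mul_cancel, map_one]

theorem Crossed.one (hz : Crossed ρ z) : z 1 = 0 := by
  have h := hz 1 1
  rw [mul_one, map_one, one_mul, inv_one, map_one, mul_one] at h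
  exact left_eq_add.1 h

theorem Crossed.inv (hz : Crossed ρ z) (g : G) : z g + ρ g * z g⁻¹ * ρ g⁻¹ = 0 := by
  rw [← hz, mul_inv_cancel, hz.one]

theorem Crossed.trace (hz : Crossed ρ z) (hperf : commutator G = ⊤) (g : G) :
    LinearMap.trace ℂ V (z g) = 0 := by
  have hconj : ∀ (g : G) (X : Module.End ℂ V),
      LinearMap.trace ℂ V (ρ g * X * ρ g⁻¹) = LinearMap.trace ℂ V X := by
    intro g X
    rw [LinearMap.trace_mul_comm, ← mul_assoc, rho_inv', one_mul]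
  let τ : G →* Multiplicative ℂ :=
    { toFun := fun g => Multiplicative.ofAdd (LinearMap.trace ℂ V (z g))
      map_one' := by rw [hz.one, map_zero]; rfl
      map_mul' := fun a b => by rw [hz a b, map_add, hconj]; rfl }
  have h1 : commutator G ≤ τ.ker := Abelianization.commutator_subset_ker τ
  rw [hperf] at h1
  have h2 : τ g = 1 := h1 (Subgroup.mem_top g)
  exact h2

/-- an operator commuting with an irreducible family and of trace zero is zero -/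
theorem schur [Nontrivial V] (S : Set G)
    (hS : ∀ F : Submodule ℂ V, (∀ g ∈ S, ∀ v ∈ F, ρ g v ∈ F) → F = ⊥ ∨ F = ⊤)
    (X : Module.End ℂ V) (hX : ∀ g ∈ S, ρ g * X = X * ρ g)
    (htr : LinearMap.trace ℂ V X = 0) : X = 0 := by
  obtain ⟨μ, hμ⟩ := Module.End.exists_eigenvalue X
  have h1 : X.eigenspace μ = ⊤ := by
    rcases hS (X.eigenspace μ) (fun g hg v hv => by
      rw [Module.End.mem_eigenspace_iff] at hv ⊢
      rw [← Module.End.mul_apply, ← hX g hg, Module.End.mul_apply, hv, map_smul]) with h | h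
    · exact absurd h hμ
    · exact h
  have h2 : X = μ • (1 : Module.End ℂ V) := by
    ext v
    have h3 : v ∈ X.eigenspace μ := by rw [h1]; exact Submodule.mem_top
    rw [Module.End.mem_eigenspace_iff] at h3
    rw [h3, LinearMap.smul_apply, Module.End.one_apply]
  rw [h2, map_smul, LinearMap.trace_one, smul_eq_mul] at htr
  have h4 : (finrank ℂ V : ℂ) ≠ 0 := Nat.cast_ne_zero.2 finrank_pos.ne'
  rcases mul_eq_zero.1 htr with h | h
  · rw [h2, h, zero_smul]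
  · exact absurd h h4

variable {K : Subgroup G}

theorem Crossed.mulK (hz : Crossed ρ z) (hK : ∀ k ∈ K, ρ k = 1) {k : G} (hk : k ∈ K) (l : G) :
    z (k * l) = z k + z l := by
  rw [hz, hK k hk, hK _ (K.inv_mem hk), one_mul, mul_one]

theorem Crossed.invK (hz : Crossed ρ z) (hK : ∀ k ∈ K, ρ k = 1) {k : G} (hk : k ∈ K) :
    z k⁻¹ = -z k := by
  have h := hz.mulK hK hk k⁻¹
  rw [mul_inv_cancel, hz.one] at h
  exact (neg_eq_of_add_eq_zero_right h.symm).symm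

theorem Crossed.conj [K.Normal] (hz : Crossed ρ z) (hK : ∀ k ∈ K, ρ k = 1) {k : G} (hk : k ∈ K)
    (g : G) : z (g * k * g⁻¹) = ρ g * z k * ρ g⁻¹ := by
  have h1 := hz.inv g
  rw [mul_assoc, hz, hz.mulK hK hk, mul_add, add_mul]
  calc z g + (ρ g * z k * ρ g⁻¹ + ρ g * z g⁻¹ * ρ g⁻¹) =
      ρ g * z k * ρ g⁻¹ + (z g + ρ g * z g⁻¹ * ρ g⁻¹) := by abel
    _ = _ := by rw [h1, add_zero]

/-- the kernel of `z` on `K` -/
def Z0 (hz : Crossed ρ z) (hK : ∀ k ∈ K, ρ k = 1) : Subgroup G where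
  carrier := {k | k ∈ K ∧ z k = 0}
  one_mem' := ⟨K.one_mem, hz.one⟩
  mul_mem' := by
    rintro a b ⟨ha, ha'⟩ ⟨hb, hb'⟩
    exact ⟨K.mul_mem ha hb, by rw [hz.mulK hK ha, ha', hb', add_zero]⟩
  inv_mem' := by
    rintro a ⟨ha, ha'⟩
    exact ⟨K.inv_mem ha, by rw [hz.invK hK ha, ha', neg_zero]⟩

theorem mem_Z0 (hz : Crossed ρ z) (hK : ∀ k ∈ K, ρ k = 1) (k : G) :
    k ∈ Z0 hz hK ↔ k ∈ K ∧ z k = 0 := Iff.rfl

theorem comm_le (hz : Crossed ρ z) (hK : ∀ k ∈ K, ρ k = 1) : ⁅K, K⁆ ≤ Z0 hz hK := by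
  rw [Subgroup.commutator_le]
  intro k hk l hl
  rw [mem_Z0]
  refine ⟨?_, ?_⟩
  · rw [commutatorElement_def]
    exact K.mul_mem (K.mul_mem (K.mul_mem hk hl) (K.inv_mem hk)) (K.inv_mem hl)
  · rw [commutatorElement_def, hz.mulK hK (K.mul_mem (K.mul_mem hk hl) (K.inv_mem hk)),
      hz.mulK hK (K.mul_mem hk hl), hz.mulK hK hk, hz.invK hK hk, hz.invK hK hl]
    abel

theorem central_mem [Nontrivial V] [K.Normal] (hz : Crossed ρ z) (hK : ∀ k ∈ K, ρ k = 1)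
    (hperf : commutator G = ⊤)
    (hρ : ∀ F : Submodule ℂ V, (∀ g, ∀ v ∈ F, ρ g v ∈ F) → F = ⊥ ∨ F = ⊤)
    (c : G) (hc : c ∈ K) (hc' : ∀ g, g * c * g⁻¹ * c⁻¹ ∈ ⁅K, K⁆) : c ∈ Z0 hz hK := by
  refine ⟨hc, ?_⟩
  refine schur (ρ := ρ) Set.univ (fun F hF => hρ F fun g v hv => hF g (Set.mem_univ g) v hv) (z c)
    ?_ (hz.trace hperf c)
  intro g _
  have h1 := (comm_le hz hK (hc' g)).2
  have h2 : g * c * g⁻¹ ∈ K := Subgroup.Normal.conj_mem inferInstance c hc g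
  rw [hz.mulK hK h2, hz.conj hK hc, hz.invK hK hc, add_neg_eq_zero] at h1
  calc ρ g * z c = ρ g * z c * (ρ g⁻¹ * ρ g) := by rw [rho_inv', mul_one]
    _ = (ρ g * z c * ρ g⁻¹) * ρ g := by rw [mul_assoc, mul_assoc, mul_assoc]
    _ = z c * ρ g := by rw [h1]

theorem powK (hz : Crossed ρ z) (hK : ∀ k ∈ K, ρ k = 1) {k : G} (hk : k ∈ K) (m : ℕ) :
    z (k ^ m) = (m : ℂ) • z k := by
  induction m with
  | zero => rw [pow_zero, hz.one, Nat.cast_zero, zero_smul]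
  | succ m ih =>
    rw [pow_succ', hz.mulK hK hk, ih]
    push_cast
    rw [add_smul, one_smul, add_comm]

end crossed

/-- the action on the lattice -/
noncomputable def sig {d : ℕ} (A : G →* Matrix (Fin d) (Fin d) ℤ) :
    G →* Module.End ℝ (Fin d → ℝ) where
  toFun g := Matrix.toLin' ((A g).map (Int.cast : ℤ → ℝ))
  map_one' := by
    rw [map_one, Matrix.map_one _ Int.cast_zero Int.cast_one, Matrix.toLin'_one]
    rfl
  map_mul' a b := by
    rw [map_mul, Matrix.map_mul_intCast, Matrix.toLin'_mul]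
    rfl

theorem vanish_core {d : ℕ} (K : Subgroup G) [K.Normal]
    (A : G →* Matrix (Fin d) (Fin d) ℤ) (J : Matrix (Fin d) (Fin d) ℝ)
    (hJ : ∀ g, ((A g).map (Int.cast : ℤ → ℝ))ᵀ * J * (A g).map (Int.cast : ℤ → ℝ) = J)
    (h : G → Fin d → ℤ) (hmul : ∀ k ∈ K, ∀ l ∈ K, h (k * l) = h k + h l)
    (hsurj : ∀ v, ∃ k ∈ K, h k = v) (heq : ∀ g, ∀ k ∈ K, h (g * k * g⁻¹) = A g *ᵥ h k)
    (ht : ∀ x : Fin d → ℝ, x ≠ 0 → ∃ t : G, (A t - 1) * (A t - 1) = 0 ∧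
      x ⬝ᵥ (J *ᵥ (((A t - 1).map (Int.cast : ℤ → ℝ)) *ᵥ x)) ≠ 0)
    [Nontrivial V] (ρ : G →* Module.End ℂ V)
    (hρ : ∀ F : Submodule ℂ V, (∀ g, ∀ v ∈ F, ρ g v ∈ F) → F = ⊥ ∨ F = ⊤)
    (hK : ∀ k ∈ K, ρ k = 1) (z : G → Module.End ℂ V) (hz : Crossed ρ z)
    (h0 : ∀ k ∈ K, h k = 0 → z k = 0) : ∀ k ∈ K, z k = 0 := by
  classical
  have hinv : ∀ k ∈ K, h k⁻¹ = -h k := by
    intro k hk
    have h1 : h 1 = 0 := by
      have := hmul 1 K.one_mem 1 K.one_mem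
      rw [mul_one] at this
      exact left_eq_add.1 this
    have h2 := hmul k hk k⁻¹ (K.inv_mem hk)
    rw [mul_inv_cancel, h1] at h2
    exact (neg_eq_of_add_eq_zero_right h2.symm).symm
  have hdep : ∀ k ∈ K, ∀ l ∈ K, h k = h l → z k = z l := by
    intro k hk l hl hkl
    have h1 := h0 (k * l⁻¹) (K.mul_mem hk (K.inv_mem hl)) (by
      rw [hmul k hk _ (K.inv_mem hl), hinv l hl, hkl, add_neg_cancel])
    rw [hz.mulK hK hk, hz.invK hK hl, add_neg_eq_zero] at h1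
    exact h1
  choose κ hκ hκ' using hsurj
  obtain ⟨ζ, hζ⟩ : ∃ ζ : (Fin d → ℤ) →+ Module.End ℂ V, ∀ v, ζ v = z (κ v) := by
    refine ⟨AddMonoidHom.mk' (fun v => z (κ v)) ?_, fun v => rfl⟩
    intro v w
    rw [← hz.mulK hK (hκ v)]
    refine hdep _ (hκ _) _ (K.mul_mem (hκ v) (hκ w)) ?_
    rw [hκ', hmul _ (hκ v) _ (hκ w), hκ', hκ']
  have hzζ : ∀ k ∈ K, z k = ζ (h k) := fun k hk => by
    rw [hζ]
    exact hdep _ hk _ (hκ _) (hκ' _).symm
  obtain ⟨f, hf⟩ : ∃ f : (Fin d → ℝ) →ₗ[ℝ] Module.End ℂ V, ∀ x, f x =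
      ∑ i, x i • ζ (Pi.single i 1) := by
    refine ⟨{ toFun := fun x => ∑ i, x i • ζ (Pi.single i 1), map_add' := ?_, map_smul' := ?_ },
      fun x => rfl⟩
    · intro x y
      simp only [Pi.add_apply, add_smul, Finset.sum_add_distrib]
    · intro c x
      simp only [Pi.smul_apply, smul_eq_mul, mul_smul, Finset.smul_sum, RingHom.id_apply]
  have hfζ : ∀ v : Fin d → ℤ, f (fun i => (v i : ℝ)) = ζ v := by
    intro v
    rw [hf]
    have h1 : v = ∑ i, v i • (Pi.single i (1 : ℤ) : Fin d → ℤ) := by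
      ext j
      simp [Finset.sum_apply, Pi.single_apply]
    conv_rhs => rw [h1, map_sum]
    refine Finset.sum_congr rfl fun i _ => ?_
    rw [map_zsmul, Int.cast_smul_eq_zsmul]
  have hAv : ∀ (g : G) (v : Fin d → ℤ),
      sig A g (fun i => (v i : ℝ)) = fun i => ((A g *ᵥ v) i : ℝ) := by
    intro g v
    ext i
    show ((A g).map (Int.cast : ℤ → ℝ) *ᵥ (fun i => (v i : ℝ))) i = _
    simp [Matrix.mulVec, dotProduct, Matrix.map_apply]
  have hequi : ∀ g x, f (sig A g x) * ρ g = ρ g * f x := by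
    intro g x
    have h1 : x = ∑ i, x i • (fun j => ((Pi.single i (1 : ℤ) : Fin d → ℤ) j : ℝ)) := by
      ext j
      simp [Finset.sum_apply, Pi.single_apply]
    rw [h1]
    simp only [map_sum, map_smul, Finset.sum_mul, Finset.mul_sum, smul_mul_assoc, mul_smul_comm]
    refine Finset.sum_congr rfl fun i _ => ?_
    congr 1
    rw [hAv, hfζ, hfζ]
    have h2 := hz.conj hK (hκ (Pi.single i 1)) g
    have h3 : g * κ (Pi.single i 1) * g⁻¹ ∈ K :=
      Subgroup.Normal.conj_mem inferInstance _ (hκ _) g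
    rw [hzζ _ h3, heq g _ (hκ _), hκ', hzζ _ (hκ _), hκ'] at h2
    rw [h2, mul_assoc, rho_inv', mul_one]
  have hf0 : f = 0 := by
    refine key2 ρ (sig A) hρ (Matrix.toLinearMap₂' ℝ J) ?_ ?_ f hequi
    · intro g x y
      rw [Matrix.toLinearMap₂'_apply', Matrix.toLinearMap₂'_apply']
      show ((A g).map (Int.cast : ℤ → ℝ) *ᵥ x) ⬝ᵥ (J *ᵥ ((A g).map (Int.cast : ℤ → ℝ) *ᵥ y)) = _
      rw [Matrix.mulVec_mulVec, ← Matrix.vecMul_transpose, ← Matrix.dotProduct_mulVec,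
        Matrix.mulVec_mulVec, ← mul_assoc, hJ g]
    · intro x hx
      obtain ⟨t, ht1, ht2⟩ := ht x hx
      have hs : sig A t - 1 = Matrix.toLin' ((A t - 1).map (Int.cast : ℤ → ℝ)) := by
        have h5 : (A t - 1).map (Int.cast : ℤ → ℝ) = (A t).map (Int.cast : ℤ → ℝ) - 1 := by
          rw [Matrix.map_sub _ (fun a b => Int.cast_sub a b),
            Matrix.map_one _ Int.cast_zero Int.cast_one]
        rw [h5, map_sub, Matrix.toLin'_one]
        rfl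
      refine ⟨t, ?_, ?_⟩
      · rw [hs]
        have h6 : (((A t - 1) * (A t - 1)).map (Int.cast : ℤ → ℝ)) = 0 := by
          rw [ht1]
          ext i j
          simp
        rw [Matrix.map_mul_intCast] at h6
        show (Matrix.toLin' _).comp (Matrix.toLin' _) = 0
        rw [← Matrix.toLin'_mul, h6, map_zero]
      · rw [hs, Matrix.toLinearMap₂'_apply', Matrix.toLin'_apply]
        exact ht2
  intro k hk
  rw [hzζ k hk, ← hfζ, hf0, LinearMap.zero_apply]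

theorem vanish {d : ℕ} (hperf : commutator G = ⊤) (K : Subgroup G) [K.Normal]
    (A : G →* Matrix (Fin d) (Fin d) ℤ) (J : Matrix (Fin d) (Fin d) ℝ)
    (hJ : ∀ g, ((A g).map (Int.cast : ℤ → ℝ))ᵀ * J * (A g).map (Int.cast : ℤ → ℝ) = J)
    (h : G → Fin d → ℤ) (hmul : ∀ k ∈ K, ∀ l ∈ K, h (k * l) = h k + h l)
    (hsurj : ∀ v, ∃ k ∈ K, h k = v) (heq : ∀ g, ∀ k ∈ K, h (g * k * g⁻¹) = A g *ᵥ h k)
    (hker : ∀ k ∈ K, h k = 0 → ∃ m : ℕ, 0 < m ∧ k ^ m ∈ ⁅K, K⁆ ⊔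
      Subgroup.closure {c | c ∈ K ∧ ∀ g, g * c * g⁻¹ * c⁻¹ ∈ ⁅K, K⁆})
    (ht : ∀ x : Fin d → ℝ, x ≠ 0 → ∃ t : G, (A t - 1) * (A t - 1) = 0 ∧
      x ⬝ᵥ (J *ᵥ (((A t - 1).map (Int.cast : ℤ → ℝ)) *ᵥ x)) ≠ 0)
    [Nontrivial V] (ρ : G →* Module.End ℂ V)
    (hρ : ∀ F : Submodule ℂ V, (∀ g, ∀ v ∈ F, ρ g v ∈ F) → F = ⊥ ∨ F = ⊤)
    (hK : ∀ k ∈ K, ρ k = 1) (z : G → Module.End ℂ V) (hz : Crossed ρ z) :
    ∀ k ∈ K, z k = 0 := by
  refine vanish_core K A J hJ h hmul hsurj heq ht ρ hρ hK z hz ?_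
  intro k hk hk0
  obtain ⟨m, hm, hkm⟩ := hker k hk hk0
  have h1 : ⁅K, K⁆ ⊔ Subgroup.closure {c | c ∈ K ∧ ∀ g, g * c * g⁻¹ * c⁻¹ ∈ ⁅K, K⁆} ≤
      Z0 hz hK := by
    refine sup_le (comm_le hz hK) ((Subgroup.closure_le _).2 ?_)
    rintro c ⟨hc, hc'⟩
    exact central_mem hz hK hperf hρ c hc hc'
  have h2 := (h1 hkm).2
  rw [powK hz hK hk] at h2
  rcases smul_eq_zero.1 h2 with h3 | h3
  · exact absurd (Nat.cast_eq_zero.1 h3) hm.ne'
  · exact h3

end Pool.Agent.Helper32.Cap
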