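import Pool.Agent.Helper32.Cap3

/-! Infinitesimal rigidity and finite covers (MP_65c98c_al): coboundaries. -/

set_option autoImplicit false

namespace Pool.Agent.Helper32.Cap

open Module Matrix

variable {G : Type} [Group G] {V : Type} [AddCommGroup V] [Module ℂ V] [FiniteDimensional ℂ V]
  {ρ : G →* Module.End ℂ V} {z : G → Module.End ℂ V}

theorem Crossed.sub_cob (hz : Crossed ρ z) (u : Module.End ℂ V) :
    Crossed ρ (fun g => z g - (u - ρ g * u * ρ g⁻¹)) := by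
  intro g h
  show z (g * h) - (u - ρ (g * h) * u * ρ (g * h)⁻¹) =
    z g - (u - ρ g * u * ρ g⁻¹) + ρ g * (z h - (u - ρ h * u * ρ h⁻¹)) * ρ g⁻¹
  rw [hz g h, _root_.mul_inv_rev, map_mul, map_mul]
  simp only [mul_sub, sub_mul, mul_assoc]
  abel

/-- a crossed homomorphism which vanishes on `K` is a coboundary on `N` if `N / K` is finite -/
theorem average (K N : Subgroup G) [K.Normal] (hKN : K ≤ N) (hfin : K.relIndex N ≠ 0)
    (hz : Crossed ρ z) (hK : ∀ k ∈ K, ρ k = 1) (hzK : ∀ k ∈ K, z k = 0) :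
    ∃ u : Module.End ℂ V, ∀ n ∈ N, z n = u - ρ n * u * ρ n⁻¹ := by
  classical
  haveI : (K.subgroupOf N).FiniteIndex := ⟨hfin⟩
  haveI : Fintype (N ⧸ K.subgroupOf N) := Fintype.ofFinite _
  obtain ⟨Z, hZ⟩ : ∃ Z : (N ⧸ K.subgroupOf N) → Module.End ℂ V,
      ∀ n : N, Z (QuotientGroup.mk n) = z n := by
    refine ⟨Quotient.lift (fun n : N => z n) ?_, fun n => rfl⟩
    intro a b hab
    have h1 : (a : G)⁻¹ * b ∈ K := by
      have := QuotientGroup.leftRel_apply.1 hab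
      rwa [Subgroup.mem_subgroupOf] at this
    show z a = z b
    have h2 : (b : G) = a * ((a : G)⁻¹ * b) := by group
    rw [h2, hz, hzK _ h1, mul_zero, zero_mul, add_zero]
  obtain ⟨c, hc⟩ : ∃ c : ℂ, c = (Fintype.card (N ⧸ K.subgroupOf N) : ℂ) := ⟨_, rfl⟩
  have hc0 : c ≠ 0 := by rw [hc]; exact Nat.cast_ne_zero.2 Fintype.card_ne_zero
  refine ⟨c⁻¹ • ∑ q, Z q, fun n hn => ?_⟩
  have h1 : ∑ q, Z ((⟨n, hn⟩ : N) • q) = ∑ q, Z q :=
    Equiv.sum_comp (MulAction.toPerm (⟨n, hn⟩ : N)) Z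
  have h2 : ∀ q, Z ((⟨n, hn⟩ : N) • q) = z n + ρ n * Z q * ρ n⁻¹ := by
    intro q
    obtain ⟨m, rfl⟩ := QuotientGroup.mk_surjective q
    have h3 : (⟨n, hn⟩ : N) • (QuotientGroup.mk m : N ⧸ K.subgroupOf N) =
        QuotientGroup.mk (⟨n, hn⟩ * m) := rfl
    rw [h3, hZ, hZ]
    exact hz n m
  rw [Finset.sum_congr rfl fun q _ => h2 q, Finset.sum_add_distrib, Finset.sum_const,
    Finset.card_univ, ← Finset.sum_mul, ← Finset.mul_sum] at h1
  have h4 : c • z n + ρ n * (∑ q, Z q) * ρ n⁻¹ = ∑ q, Z q := by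
    rw [hc, Nat.cast_smul_eq_nsmul]
    exact h1
  have h5 : z n = c⁻¹ • (c • z n) := by rw [smul_smul, inv_mul_cancel₀ hc0, one_smul]
  rw [h5, eq_sub_of_add_eq h4, smul_sub, mul_smul_comm, smul_mul_assoc]

theorem rigid_iff (K N : Subgroup G) [K.Normal] (hKN : K ≤ N) (hfin : K.relIndex N ≠ 0)
    (hK : ∀ k ∈ K, ρ k = 1) (hv : ∀ z, Crossed ρ z → ∀ k ∈ K, z k = 0) :
    (∀ z, Crossed ρ z → ∃ u, ∀ g, z g = u - ρ g * u * ρ g⁻¹) ↔
      ∀ z, Crossed ρ z → (∀ n ∈ N, z n = 0) →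
        ∃ u, (∀ n ∈ N, ρ n * u = u * ρ n) ∧ ∀ g, z g = u - ρ g * u * ρ g⁻¹ := by
  constructor
  · intro h z hz hzN
    obtain ⟨u, hu⟩ := h z hz
    refine ⟨u, fun n hn => ?_, hu⟩
    have h1 := hu n
    rw [hzN n hn, eq_comm, sub_eq_zero] at h1
    calc ρ n * u = ρ n * u * (ρ n⁻¹ * ρ n) := by rw [rho_inv', mul_one]
      _ = (ρ n * u * ρ n⁻¹) * ρ n := by simp only [mul_assoc]
      _ = u * ρ n := by rw [← h1]
  · intro h z hz
    obtain ⟨u, hu⟩ := average K N hKN hfin hz hK (hv z hz)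
    obtain ⟨u', _, hu'⟩ := h _ (hz.sub_cob u) (fun n hn => by
      show z n - (u - ρ n * u * ρ n⁻¹) = 0
      rw [hu n hn, sub_self])
    refine ⟨u' + u, fun g => ?_⟩
    have h1 : z g - (u - ρ g * u * ρ g⁻¹) = u' - ρ g * u' * ρ g⁻¹ := hu' g
    rw [mul_add, add_mul, ← sub_add_cancel (z g) (u - ρ g * u * ρ g⁻¹), h1]
    abel

theorem rigid_of_irr (hperf : commutator G = ⊤) (K N : Subgroup G) [K.Normal] [N.Normal]
    (hKN : K ≤ N) (hfin : K.relIndex N ≠ 0) [Nontrivial V]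
    (hK : ∀ k ∈ K, ρ k = 1) (hv : ∀ z, Crossed ρ z → ∀ k ∈ K, z k = 0)
    (hN : ∀ F : Submodule ℂ V, (∀ n ∈ N, ∀ v ∈ F, ρ n v ∈ F) → F = ⊥ ∨ F = ⊤) :
    ∀ z, Crossed ρ z → ∃ u, ∀ g, z g = u - ρ g * u * ρ g⁻¹ := by
  rw [rigid_iff K N hKN hfin hK hv]
  intro z hz hzN
  refine ⟨0, fun n _ => by rw [mul_zero, zero_mul], fun g => ?_⟩
  rw [mul_zero, zero_mul, sub_zero]
  refine schur (ρ := ρ) (N : Set G) hN (z g) ?_ (hz.trace hperf g)
  intro n hn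
  have h1 : z (n * g) = ρ n * z g * ρ n⁻¹ := by rw [hz, hzN n hn, zero_add]
  have h2 : g⁻¹ * n * g ∈ N := by
    have := Subgroup.Normal.conj_mem (H := N) inferInstance n hn g⁻¹
    rwa [inv_inv] at this
  have h3 : z (g * (g⁻¹ * n * g)) = z g := by rw [hz, hzN _ h2, mul_zero, zero_mul, add_zero]
  rw [show g * (g⁻¹ * n * g) = n * g by group, h1] at h3
  calc ρ n * z g = ρ n * z g * (ρ n⁻¹ * ρ n) := by rw [rho_inv', mul_one]
    _ = (ρ n * z g * ρ n⁻¹) * ρ n := by simp only [mul_assoc]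
    _ = z g * ρ n := by rw [h3]

end Pool.Agent.Helper32.Cap
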