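import Pool.Agent.Helper32.Cap4

/-! Infinitesimal rigidity and finite covers (MP_65c98c_al): boundary classes (Clifford theory). -/

set_option autoImplicit false

namespace Pool.Agent.Helper32.Cap

open Module

/-- endomorphisms of a semisimple module are von Neumann regular -/
theorem regular {A V : Type} [Ring A] [AddCommGroup V] [Module A V]
    [ComplementedLattice (Submodule A V)] (X : V →ₗ[A] V) :
    ∃ Y : V →ₗ[A] V, ∀ v, X (Y (X v)) = X v := by
  obtain ⟨C, hC⟩ := exists_isCompl (LinearMap.ker X)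
  obtain ⟨D, hD⟩ := exists_isCompl (LinearMap.range X)
  obtain ⟨Xc, hXc⟩ : ∃ Xc : C →ₗ[A] LinearMap.range X, ∀ c : C, (Xc c : V) = X c :=
    ⟨(X.comp C.subtype).codRestrict (LinearMap.range X) (fun c => LinearMap.mem_range_self X _),
      fun c => rfl⟩
  have hbij : Function.Bijective Xc := by
    constructor
    · rw [injective_iff_map_eq_zero]
      intro c hc
      have h1 : X c = 0 := by rw [← hXc, hc]; rfl
      exact Subtype.ext (Submodule.disjoint_def.1 hC.disjoint (c : V) h1 c.2)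
    · rintro ⟨w, v, rfl⟩
      have hv : v ∈ LinearMap.ker X ⊔ C := by rw [hC.sup_eq_top]; exact Submodule.mem_top
      obtain ⟨k, hk, c, hc, rfl⟩ := Submodule.mem_sup.1 hv
      refine ⟨⟨c, hc⟩, Subtype.ext ?_⟩
      rw [hXc]
      show X c = X (k + c)
      rw [map_add, LinearMap.mem_ker.1 hk, zero_add]
  let e : C ≃ₗ[A] LinearMap.range X := LinearEquiv.ofBijective Xc hbij
  refine ⟨LinearMap.ofIsCompl hD (C.subtype.comp e.symm.toLinearMap) 0, fun v => ?_⟩
  have h1 := LinearMap.ofIsCompl_apply_left hD (φ := C.subtype.comp e.symm.toLinearMap)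
    (ψ := 0) ⟨X v, LinearMap.mem_range_self X v⟩
  rw [show (X v : V) = ((⟨X v, LinearMap.mem_range_self X v⟩ : LinearMap.range X) : V) from rfl, h1]
  have h2 : X ((e.symm ⟨X v, LinearMap.mem_range_self X v⟩ : C) : V) =
      (Xc (e.symm ⟨X v, LinearMap.mem_range_self X v⟩) : V) := (hXc _).symm
  have h3 : Xc (e.symm ⟨X v, LinearMap.mem_range_self X v⟩) = ⟨X v, LinearMap.mem_range_self X v⟩ :=
    e.apply_symm_apply _
  show X ((e.symm ⟨X v, LinearMap.mem_range_self X v⟩ : C) : V) = X v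
  rw [h2, h3]

variable {G : Type} [Group G] {V : Type} [AddCommGroup V] [Module ℂ V] [FiniteDimensional ℂ V]
  {ρ : G →* Module.End ℂ V} {z : G → Module.End ℂ V}

/-- translate of a submodule -/
def tr (A : Subalgebra ℂ (Module.End ℂ V)) (hA : ∀ g, ∀ a ∈ A, ρ g * a * ρ g⁻¹ ∈ A) (g : G)
    (E : Submodule A V) : Submodule A V where
  carrier := {v | ρ g⁻¹ v ∈ E}
  add_mem' := by
    intro a b ha hb
    show ρ g⁻¹ (a + b) ∈ E
    rw [map_add]
    exact E.add_mem ha hb
  zero_mem' := by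
    show ρ g⁻¹ 0 ∈ E
    rw [map_zero]
    exact E.zero_mem
  smul_mem' := by
    intro a v hv
    show ρ g⁻¹ ((a : Module.End ℂ V) v) ∈ E
    have h1 := hA g⁻¹ a a.2
    rw [inv_inv] at h1
    have h2 : ρ g⁻¹ ((a : Module.End ℂ V) v) = (⟨_, h1⟩ : A) • (ρ g⁻¹ v) := by
      show ρ g⁻¹ ((a : Module.End ℂ V) v) = (ρ g⁻¹ * a * ρ g) (ρ g⁻¹ v)
      rw [← Module.End.mul_apply, ← Module.End.mul_apply, mul_assoc, rho_inv, mul_one]
    rw [h2]
    exact E.smul_mem _ hv

/-- translates form an automorphism of the lattice -/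
def trIso (A : Subalgebra ℂ (Module.End ℂ V)) (hA : ∀ g, ∀ a ∈ A, ρ g * a * ρ g⁻¹ ∈ A) (g : G) :
    Submodule A V ≃o Submodule A V where
  toFun := tr A hA g
  invFun := tr A hA g⁻¹
  left_inv E := by
    ext v
    show ρ g⁻¹ (ρ g⁻¹⁻¹ v) ∈ E ↔ v ∈ E
    rw [← Module.End.mul_apply, rho_inv, Module.End.one_apply]
  right_inv E := by
    ext v
    show ρ g⁻¹⁻¹ (ρ g⁻¹ v) ∈ E ↔ v ∈ E
    rw [← Module.End.mul_apply, rho_inv', Module.End.one_apply]
  map_rel_iff' := by
    intro E F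
    constructor
    · intro h v hv
      have h1 : ρ g v ∈ tr A hA g E := by
        show ρ g⁻¹ (ρ g v) ∈ E
        rwa [← Module.End.mul_apply, rho_inv', Module.End.one_apply]
      have h2 : ρ g⁻¹ (ρ g v) ∈ F := h h1
      rwa [← Module.End.mul_apply, rho_inv', Module.End.one_apply] at h2
    · intro h v hv
      exact h hv

theorem clifford [Nontrivial V]
    (hρ : ∀ F : Submodule ℂ V, (∀ g, ∀ v ∈ F, ρ g v ∈ F) → F = ⊥ ∨ F = ⊤)
    (A : Subalgebra ℂ (Module.End ℂ V)) (hA : ∀ g, ∀ a ∈ A, ρ g * a * ρ g⁻¹ ∈ A) :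
    ComplementedLattice (Submodule A V) := by
  haveI hst : IsScalarTower ℂ A V := ⟨fun c a v => rfl⟩
  haveI : IsArtinian A V := isArtinian_of_tower ℂ inferInstance
  haveI : IsAtomic (Submodule A V) :=
    isAtomic_of_orderBot_wellFounded_lt (wellFounded_lt (α := Submodule A V))
  apply complementedLattice_of_sSup_atoms_eq_top
  obtain ⟨S, hS⟩ : ∃ S : Submodule A V, S = sSup {a : Submodule A V | IsAtom a} := ⟨_, rfl⟩
  rw [← hS]
  have h1 : ∀ g : G, tr A hA g S ≤ S := by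
    intro g
    show trIso A hA g S ≤ S
    rw [hS, OrderIso.map_sSup]
    refine iSup₂_le fun a ha => le_sSup ?_
    exact ((trIso A hA g).isAtom_iff a).2 ha
  have h2 : ∀ g : G, ∀ v ∈ S, ρ g v ∈ S := by
    intro g v hv
    apply h1 g
    show ρ g⁻¹ (ρ g v) ∈ S
    rwa [← Module.End.mul_apply, rho_inv', Module.End.one_apply]
  rcases hρ (S.restrictScalars ℂ) h2 with h3 | h3
  · exfalso
    have h4 : S = ⊥ := (Submodule.restrictScalars_eq_bot_iff ℂ A V).1 h3
    obtain ⟨a, ha, _⟩ := (eq_bot_or_exists_atom_le (⊤ : Submodule A V)).resolve_left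
      (by
        intro h
        obtain ⟨v, hv⟩ := exists_ne (0 : V)
        apply hv
        have : v ∈ (⊤ : Submodule A V) := Submodule.mem_top
        rw [h] at this
        exact this)
    have h5 : a ≤ S := by rw [hS]; exact le_sSup ha
    rw [h4, le_bot_iff] at h5
    exact ha.1 h5
  · exact (Submodule.restrictScalars_eq_top_iff ℂ A V).1 h3

/-- nondegeneracy of the trace form on the commutant -/
theorem trace_nondeg [Nontrivial V]
    (hρ : ∀ F : Submodule ℂ V, (∀ g, ∀ v ∈ F, ρ g v ∈ F) → F = ⊥ ∨ F = ⊤)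
    (A : Subalgebra ℂ (Module.End ℂ V)) (hA : ∀ g, ∀ a ∈ A, ρ g * a * ρ g⁻¹ ∈ A)
    (X : Module.End ℂ V) (hX : ∀ a ∈ A, a * X = X * a)
    (h : ∀ Y : Module.End ℂ V, (∀ a ∈ A, a * Y = Y * a) → LinearMap.trace ℂ V (Y * X) = 0) :
    X = 0 := by
  haveI := clifford hρ A hA
  haveI hst : IsScalarTower ℂ A V := ⟨fun c a v => rfl⟩
  obtain ⟨XA, hXA⟩ : ∃ XA : V →ₗ[A] V, ∀ v, XA v = X v :=
    ⟨{ toFun := X, map_add' := X.map_add, map_smul' := fun a v => by
        show X ((a : Module.End ℂ V) v) = (a : Module.End ℂ V) (X v)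
        rw [← Module.End.mul_apply, ← Module.End.mul_apply, hX a a.2] }, fun v => rfl⟩
  obtain ⟨YA, hYA⟩ := regular XA
  obtain ⟨Y, hY⟩ : ∃ Y : Module.End ℂ V, ∀ v, Y v = YA v := ⟨YA.restrictScalars ℂ, fun v => rfl⟩
  have hYc : ∀ a ∈ A, a * Y = Y * a := by
    intro a ha
    ext v
    rw [Module.End.mul_apply, Module.End.mul_apply, hY, hY]
    exact (YA.map_smul (⟨a, ha⟩ : A) v).symm
  have hXYX : X * Y * X = X := by
    ext v
    rw [Module.End.mul_apply, Module.End.mul_apply, hY, ← hXA, ← hXA, hYA]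
  have hid : IsIdempotentElem (Y * X) := by
    show Y * X * (Y * X) = Y * X
    rw [mul_assoc, ← mul_assoc X Y X, hXYX]
  have h0 : Y * X = 0 := by
    exact LinearMap.IsIdempotentElem.eq_zero_of_trace_eq_zero hid (h Y hYc)
  rw [← hXYX, mul_assoc, h0, mul_zero]

end Pool.Agent.Helper32.Cap
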