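import Pool.Agent.Helper32.Cap5

/-! Infinitesimal rigidity and finite covers (MP_65c98c_al): elements which commute with a perfect
complement. -/

set_option autoImplicit false

namespace Pool.Agent.Helper32.Cap

open Module

variable {G : Type} [Group G] {V : Type} [AddCommGroup V] [Module ℂ V] [FiniteDimensional ℂ V]
  {ρ : G →* Module.End ℂ V} {z : G → Module.End ℂ V}

/-- the elements which act trivially on `N / K` -/
def cen (K N : Subgroup G) [K.Normal] [N.Normal] : Subgroup G :=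
  (MulAut.conjNormal (H := N.map (QuotientGroup.mk' K)) |>.comp (QuotientGroup.mk' K)).ker

instance cen_normal (K N : Subgroup G) [K.Normal] [N.Normal] : (cen K N).Normal :=
  MonoidHom.normal_ker _

theorem mem_cen (K N : Subgroup G) [K.Normal] [N.Normal] (x : G) (hx : x ∈ cen K N) (n : G)
    (hn : n ∈ N) : x * n * x⁻¹ * n⁻¹ ∈ K := by
  have h1 : MulAut.conjNormal (H := N.map (QuotientGroup.mk' K)) (QuotientGroup.mk' K x) = 1 := hx
  have h2 := congrArg (fun f : MulAut (N.map (QuotientGroup.mk' K)) =>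
    ((f ⟨QuotientGroup.mk' K n, Subgroup.mem_map_of_mem _ hn⟩ : N.map (QuotientGroup.mk' K)) :
      G ⧸ K)) h1
  simp only [MulAut.conjNormal_apply, MulAut.one_apply] at h2
  rw [← QuotientGroup.eq_one_iff]
  have h3 : ((x * n * x⁻¹ * n⁻¹ : G) : G ⧸ K) = QuotientGroup.mk' K x * QuotientGroup.mk' K n *
      (QuotientGroup.mk' K x)⁻¹ * (QuotientGroup.mk' K n)⁻¹ := rfl
  rw [h3, h2, mul_inv_cancel]

theorem cen_finite (K N : Subgroup G) [K.Normal] [N.Normal] (hfin : K.relIndex N ≠ 0) :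
    (cen K N).FiniteIndex := by
  classical
  haveI : Finite (N.map (QuotientGroup.mk' K)) := by
    have h1 : ((QuotientGroup.mk' K).comp N.subtype).range = N.map (QuotientGroup.mk' K) := by
      rw [MonoidHom.range_comp, N.range_subtype]
    have h2 : ((QuotientGroup.mk' K).comp N.subtype).ker = K.subgroupOf N := by
      rw [← MonoidHom.comap_ker, QuotientGroup.ker_mk']
      rfl
    have h3 := Subgroup.index_ker ((QuotientGroup.mk' K).comp N.subtype)
    rw [h1, h2] at h3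
    apply Nat.finite_of_card_ne_zero
    rw [← h3]
    exact hfin
  haveI : Finite (MulAut (N.map (QuotientGroup.mk' K))) :=
    Finite.of_injective (fun f => (f : N.map (QuotientGroup.mk' K) → N.map (QuotientGroup.mk' K)))
      (fun f g h => MulEquiv.ext fun x => congrFun h x)
  exact Subgroup.finiteIndex_ker _

theorem scalar [Nontrivial V] (S : Set G)
    (hS : ∀ F : Submodule ℂ V, (∀ g ∈ S, ∀ v ∈ F, ρ g v ∈ F) → F = ⊥ ∨ F = ⊤)
    (X : Module.End ℂ V) (hX : ∀ g ∈ S, ρ g * X = X * ρ g) : ∃ μ : ℂ, X = μ • 1 := by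
  obtain ⟨μ, hμ⟩ := Module.End.exists_eigenvalue X
  refine ⟨μ, ?_⟩
  have h1 : X.eigenspace μ = ⊤ := by
    rcases hS (X.eigenspace μ) (fun g hg v hv => by
      rw [Module.End.mem_eigenspace_iff] at hv ⊢
      rw [← Module.End.mul_apply, ← hX g hg, Module.End.mul_apply, hv, map_smul]) with h | h
    · exact absurd h hμ
    · exact h
  ext v
  have h3 : v ∈ X.eigenspace μ := by rw [h1]; exact Submodule.mem_top
  rw [Module.End.mem_eigenspace_iff] at h3
  rw [h3, LinearMap.smul_apply, Module.End.one_apply]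

theorem center_zero [Nontrivial V] (hz : Crossed ρ z) (hperf : commutator G = ⊤)
    (hρ : ∀ F : Submodule ℂ V, (∀ g, ∀ v ∈ F, ρ g v ∈ F) → F = ⊥ ∨ F = ⊤)
    (w : G) (hw : w ∈ Subgroup.center G) : z w = 0 := by
  rw [Subgroup.mem_center_iff] at hw
  have hS : ∀ F : Submodule ℂ V, (∀ g ∈ (Set.univ : Set G), ∀ v ∈ F, ρ g v ∈ F) → F = ⊥ ∨ F = ⊤ :=
    fun F hF => hρ F fun g v hv => hF g (Set.mem_univ g) v hv
  obtain ⟨μ, hμ⟩ := scalar (ρ := ρ) Set.univ hS (ρ w) (fun g _ => by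
    rw [← map_mul, ← map_mul, hw g])
  refine schur (ρ := ρ) Set.univ hS (z w) ?_ (hz.trace hperf w)
  intro g _
  have h1 : z (g * w) = z (w * g) := by rw [hw g]
  rw [hz g w, hz w g] at h1
  have h2 : ρ w * z g * ρ w⁻¹ = z g := by
    have h3 : ρ w * z g = z g * ρ w := by
      rw [hμ, smul_mul_assoc, one_mul, mul_smul_comm, mul_one]
    rw [h3, mul_assoc, rho_inv, mul_one]
  rw [h2, add_comm (z w) (z g)] at h1
  have h4 : ρ g * z w * ρ g⁻¹ = z w := add_left_cancel h1
  calc ρ g * z w = ρ g * z w * (ρ g⁻¹ * ρ g) := by rw [rho_inv', mul_one]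
    _ = (ρ g * z w * ρ g⁻¹) * ρ g := by simp only [mul_assoc]
    _ = z w * ρ g := by rw [h4]

/-- traces against the commutant of a perfect subgroup -/
theorem perfect_trace (hz : Crossed ρ z) (M : Subgroup G) (hM : ⁅M, M⁆ = M)
    (Y : Module.End ℂ V) (hY : ∀ x ∈ M, ρ x * Y = Y * ρ x) (x : G) (hx : x ∈ M) :
    LinearMap.trace ℂ V (Y * z x) = 0 := by
  have hmul : ∀ a ∈ M, ∀ b, LinearMap.trace ℂ V (Y * z (a * b)) =
      LinearMap.trace ℂ V (Y * z a) + LinearMap.trace ℂ V (Y * z b) := by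
    intro a ha b
    rw [hz, mul_add, map_add]
    congr 1
    calc LinearMap.trace ℂ V (Y * (ρ a * z b * ρ a⁻¹)) =
        LinearMap.trace ℂ V (ρ a * (Y * z b) * ρ a⁻¹) := by
          congr 1
          simp only [← mul_assoc]
          rw [hY a ha]
      _ = LinearMap.trace ℂ V (Y * z b) := by
          rw [LinearMap.trace_mul_comm, ← mul_assoc, rho_inv', one_mul]
  have hinv : ∀ a ∈ M, LinearMap.trace ℂ V (Y * z a⁻¹) = -LinearMap.trace ℂ V (Y * z a) := by
    intro a ha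
    have h1 := hmul a ha a⁻¹
    rw [mul_inv_cancel, hz.one, mul_zero, map_zero] at h1
    exact (neg_eq_of_add_eq_zero_right h1.symm).symm
  let T : Subgroup G :=
    { carrier := {x | x ∈ M ∧ LinearMap.trace ℂ V (Y * z x) = 0}
      one_mem' := ⟨M.one_mem, by rw [hz.one, mul_zero, map_zero]⟩
      mul_mem' := by
        rintro a b ⟨ha, ha'⟩ ⟨hb, hb'⟩
        exact ⟨M.mul_mem ha hb, by rw [hmul a ha, ha', hb', add_zero]⟩
      inv_mem' := by
        rintro a ⟨ha, ha'⟩
        exact ⟨M.inv_mem ha, by rw [hinv a ha, ha', neg_zero]⟩ }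
  have h1 : ⁅M, M⁆ ≤ T := by
    rw [Subgroup.commutator_le]
    intro k hk l hl
    have hkl := M.mul_mem hk hl
    have hklk := M.mul_mem hkl (M.inv_mem hk)
    refine ⟨by rw [commutatorElement_def]; exact M.mul_mem hklk (M.inv_mem hl), ?_⟩
    rw [commutatorElement_def, hmul _ hklk, hmul _ hkl, hmul _ hk, hinv _ hk, hinv _ hl]
    ring
  rw [hM] at h1
  exact (h1 hx).2

theorem c2_zero [Nontrivial V] (hperf : commutator G = ⊤) (K N : Subgroup G) [K.Normal] [N.Normal]
    (hfin : K.relIndex N ≠ 0)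
    (hρ : ∀ F : Submodule ℂ V, (∀ g, ∀ v ∈ F, ρ g v ∈ F) → F = ⊥ ∨ F = ⊤)
    (hK : ∀ k ∈ K, ρ k = 1) (hz : Crossed ρ z) (c : G) (hc : c ∈ K) (M : Subgroup G)
    (hM : ⁅M, M⁆ = M) (hNM : N ⊔ M = ⊤) (w : G) (hw : w ∈ Subgroup.center G) (hcw : c * w ∈ M)
    (hcM : ∀ x ∈ M, x * c = c * x) : z c = 0 := by
  classical
  have hzw := center_zero hz hperf hρ w hw
  have hX : z (c * w) = z c := by rw [hz.mulK hK hc, hzw, add_zero]
  have hXM : ∀ x ∈ M, ρ x * z c = z c * ρ x := by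
    intro x hx
    have h1 : z (x * c) = z (c * x) := by rw [hcM x hx]
    rw [hz x c, hz.mulK hK hc, add_comm (z c) (z x)] at h1
    have h4 : ρ x * z c * ρ x⁻¹ = z c := add_left_cancel h1
    calc ρ x * z c = ρ x * z c * (ρ x⁻¹ * ρ x) := by rw [rho_inv', mul_one]
      _ = (ρ x * z c * ρ x⁻¹) * ρ x := by simp only [mul_assoc]
      _ = z c * ρ x := by rw [h4]
  have hNcomm : ∀ x ∈ cen K N, ∀ n ∈ N, ρ n * ρ x * ρ n⁻¹ = ρ x := by
    intro x hx n hn
    have h1 := hK _ (mem_cen K N x hx n hn)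
    have h2 : ρ x * ρ n * ρ x⁻¹ * ρ n⁻¹ = 1 := by rw [← map_mul, ← map_mul, ← map_mul, h1]
    have h3 : ρ x * ρ n = ρ n * ρ x := by
      calc ρ x * ρ n = ρ x * ρ n * (ρ x⁻¹ * (ρ n⁻¹ * ρ n) * ρ x) := by
            rw [rho_inv', mul_one, rho_inv', mul_one]
        _ = (ρ x * ρ n * ρ x⁻¹ * ρ n⁻¹) * (ρ n * ρ x) := by simp only [mul_assoc]
        _ = ρ n * ρ x := by rw [h2, one_mul]
    rw [← h3, mul_assoc, rho_inv, mul_one]
  obtain ⟨A, hAdef⟩ : ∃ A : Subalgebra ℂ (Module.End ℂ V),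
    A = Algebra.adjoin ℂ (ρ '' ((M ⊓ cen K N : Subgroup G) : Set G)) := ⟨_, rfl⟩
  -- conjugation by `g` preserves `A` if it preserves the generators
  have hgen : ∀ g : G, (∀ x ∈ M ⊓ cen K N, ρ g * ρ x * ρ g⁻¹ ∈ A) →
      ∀ a ∈ A, ρ g * a * ρ g⁻¹ ∈ A := by
    intro g hg a ha
    rw [hAdef] at ha
    induction ha using Algebra.adjoin_induction with
    | mem a ha =>
      obtain ⟨x, hx, rfl⟩ := ha
      exact hg x hx
    | algebraMap r =>
      have : ρ g * (algebraMap ℂ (Module.End ℂ V)) r * ρ g⁻¹ = algebraMap ℂ (Module.End ℂ V) r := by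
        rw [← Algebra.commutes, mul_assoc, rho_inv, mul_one]
      rw [this]
      exact A.algebraMap_mem r
    | add a b _ _ ha hb =>
      rw [mul_add, add_mul]
      exact A.add_mem ha hb
    | mul a b _ _ ha hb =>
      have : ρ g * (a * b) * ρ g⁻¹ = (ρ g * a * ρ g⁻¹) * (ρ g * b * ρ g⁻¹) := by
        calc ρ g * (a * b) * ρ g⁻¹ = ρ g * a * 1 * b * ρ g⁻¹ := by simp only [mul_assoc, one_mul]
          _ = ρ g * a * (ρ g⁻¹ * ρ g) * b * ρ g⁻¹ := by rw [rho_inv']
          _ = _ := by simp only [mul_assoc]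
      rw [this]
      exact A.mul_mem ha hb
  have hsub : ∀ x ∈ M ⊓ cen K N, ρ x ∈ A := fun x hx => by
    rw [hAdef]; exact Algebra.subset_adjoin ⟨x, hx, rfl⟩
  let P : Subgroup G :=
    { carrier := {g | (∀ a ∈ A, ρ g * a * ρ g⁻¹ ∈ A) ∧ ∀ a ∈ A, ρ g⁻¹ * a * ρ g ∈ A}
      one_mem' := by
        constructor <;> intro a ha <;> simpa using ha
      mul_mem' := by
        rintro g h ⟨hg, hg'⟩ ⟨hh, hh'⟩
        constructor
        · intro a ha
          have := hg _ (hh a ha)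
          rwa [_root_.mul_inv_rev, map_mul, map_mul, show ρ g * ρ h * a * (ρ h⁻¹ * ρ g⁻¹) =
            ρ g * (ρ h * a * ρ h⁻¹) * ρ g⁻¹ by simp only [mul_assoc]]
        · intro a ha
          have := hh' _ (hg' a ha)
          rwa [_root_.mul_inv_rev, map_mul, map_mul, show ρ h⁻¹ * ρ g⁻¹ * a * (ρ g * ρ h) =
            ρ h⁻¹ * (ρ g⁻¹ * a * ρ g) * ρ h by simp only [mul_assoc]]
      inv_mem' := by
        rintro g ⟨hg, hg'⟩
        constructor
        · intro a ha
          have := hg' a ha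
          rwa [inv_inv]
        · intro a ha
          have := hg a ha
          rwa [inv_inv] }
  have hN : N ≤ P := by
    intro n hn
    constructor
    · refine hgen n fun x hx => ?_
      rw [hNcomm x hx.2 n hn]
      exact hsub x hx
    · have := hgen n⁻¹ fun x hx => by
        rw [hNcomm x hx.2 n⁻¹ (N.inv_mem hn)]
        exact hsub x hx
      rwa [inv_inv] at this
  have hMP : M ≤ P := by
    intro m hm
    constructor
    · refine hgen m fun x hx => ?_
      rw [← map_mul, ← map_mul]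
      exact hsub _ ⟨M.mul_mem (M.mul_mem hm hx.1) (M.inv_mem hm),
        Subgroup.Normal.conj_mem inferInstance x hx.2 m⟩
    · have := hgen m⁻¹ fun x hx => by
        rw [← map_mul, ← map_mul]
        exact hsub _ ⟨M.mul_mem (M.mul_mem (M.inv_mem hm) hx.1) (M.inv_mem (M.inv_mem hm)),
          Subgroup.Normal.conj_mem inferInstance x hx.2 m⁻¹⟩
      rwa [inv_inv] at this
  have htop : ∀ g : G, g ∈ P := by
    intro g
    have : (⊤ : Subgroup G) ≤ P := by rw [← hNM]; exact sup_le hN hMP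
    exact this (Subgroup.mem_top g)
  refine trace_nondeg hρ A (fun g a ha => (htop g).1 a ha) (z c) ?_ ?_
  · intro a ha
    rw [hAdef] at ha
    induction ha using Algebra.adjoin_induction with
    | mem a ha =>
      obtain ⟨x, hx, rfl⟩ := ha
      exact hXM x hx.1
    | algebraMap r => exact Algebra.commutes r _
    | add a b _ _ ha hb => rw [add_mul, mul_add, ha, hb]
    | mul a b _ _ ha hb => rw [mul_assoc, hb, ← mul_assoc, ha, mul_assoc]
  · intro Y hY
    haveI := cen_finite K N hfin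
    haveI : ((cen K N).subgroupOf M).FiniteIndex := inferInstance
    haveI : Fintype (M ⧸ (cen K N).subgroupOf M) := Fintype.ofFinite _
    obtain ⟨Z, hZ⟩ : ∃ Z : (M ⧸ (cen K N).subgroupOf M) → Module.End ℂ V,
        ∀ m : M, Z (QuotientGroup.mk m) = ρ m * Y * ρ (m : G)⁻¹ := by
      refine ⟨Quotient.lift (fun m : M => ρ m * Y * ρ (m : G)⁻¹) ?_, fun m => rfl⟩
      intro a b hab
      have h1 : (a : G)⁻¹ * b ∈ cen K N := by
        have := QuotientGroup.leftRel_apply.1 hab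
        rwa [Subgroup.mem_subgroupOf] at this
      have h2 : (a : G)⁻¹ * b ∈ M := M.mul_mem (M.inv_mem a.2) b.2
      have h3 := hY _ (hsub _ ⟨h2, h1⟩)
      show ρ a * Y * ρ (a : G)⁻¹ = ρ b * Y * ρ (b : G)⁻¹
      have h4 : (b : G) = a * ((a : G)⁻¹ * b) := by group
      have h5 : ρ (b : G) = ρ (a : G) * ρ ((a : G)⁻¹ * b) := by rw [← map_mul, ← h4]
      have h6 : ρ (b : G)⁻¹ = ρ ((a : G)⁻¹ * b)⁻¹ * ρ (a : G)⁻¹ := by
        rw [← map_mul]; congr 1; group
      rw [h5, h6]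
      calc ρ a * Y * ρ (a : G)⁻¹ = ρ a * Y * (ρ ((a : G)⁻¹ * b) * ρ ((a : G)⁻¹ * b)⁻¹) *
            ρ (a : G)⁻¹ := by rw [rho_inv, mul_one]
        _ = ρ a * (Y * ρ ((a : G)⁻¹ * b)) * ρ ((a : G)⁻¹ * b)⁻¹ * ρ (a : G)⁻¹ := by
            simp only [mul_assoc]
        _ = _ := by rw [← h3]; simp only [mul_assoc]
    -- the average commutes with `M`
    have hcomm : ∀ m ∈ M, ρ m * (∑ q, Z q) = (∑ q, Z q) * ρ m := by
      intro m hm
      have h1 : ∑ q, Z ((⟨m, hm⟩ : M) • q) = ∑ q, Z q :=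
        Equiv.sum_comp (MulAction.toPerm (⟨m, hm⟩ : M)) Z
      have h2 : ∀ q, Z ((⟨m, hm⟩ : M) • q) = ρ m * Z q * ρ m⁻¹ := by
        intro q
        obtain ⟨l, rfl⟩ := QuotientGroup.mk_surjective q
        have h3 : (⟨m, hm⟩ : M) • (QuotientGroup.mk l : M ⧸ (cen K N).subgroupOf M) =
            QuotientGroup.mk (⟨m, hm⟩ * l) := rfl
        rw [h3, hZ, hZ]
        show ρ (m * l) * Y * ρ (m * (l : G))⁻¹ = _
        rw [_root_.mul_inv_rev, map_mul, map_mul]
        simp only [mul_assoc]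
      rw [Finset.sum_congr rfl fun q _ => h2 q, ← Finset.sum_mul, ← Finset.mul_sum] at h1
      calc ρ m * (∑ q, Z q) = ρ m * (∑ q, Z q) * (ρ m⁻¹ * ρ m) := by rw [rho_inv', mul_one]
        _ = (ρ m * (∑ q, Z q) * ρ m⁻¹) * ρ m := by simp only [mul_assoc]
        _ = (∑ q, Z q) * ρ m := by rw [h1]
    have h7 := perfect_trace hz M hM (∑ q, Z q) hcomm (c * w) hcw
    rw [hX, Finset.sum_mul, map_sum] at h7
    have h8 : ∀ q, LinearMap.trace ℂ V (Z q * z c) = LinearMap.trace ℂ V (Y * z c) := by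
      intro q
      obtain ⟨l, rfl⟩ := QuotientGroup.mk_surjective q
      rw [hZ]
      have h9 : ρ (l : G)⁻¹ * z c = z c * ρ (l : G)⁻¹ := hXM _ (M.inv_mem l.2)
      rw [mul_assoc, h9, ← mul_assoc, LinearMap.trace_mul_comm, ← mul_assoc, ← mul_assoc, rho_inv',
        one_mul]
    rw [Finset.sum_congr rfl fun q _ => h8 q, Finset.sum_const, Finset.card_univ, nsmul_eq_mul] at h7
    rcases mul_eq_zero.1 h7 with h | h
    · exact absurd h (Nat.cast_ne_zero.2 Fintype.card_ne_zero)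
    · exact h

end Pool.Agent.Helper32.Cap
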