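import Pool.Agent.Helper32.Cap6

/-! Infinitesimal rigidity and finite covers (MP_65c98c_al): the general vanishing theorem. -/

set_option autoImplicit false

namespace Pool.Agent.Helper32.Cap

open Module Matrix

variable {G : Type} [Group G] {V : Type} [AddCommGroup V] [Module ℂ V] [FiniteDimensional ℂ V]

theorem vanish2 {d : ℕ} (hperf : commutator G = ⊤) (K N : Subgroup G) [K.Normal] [N.Normal]
    (hfin : K.relIndex N ≠ 0)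
    (A : G →* Matrix (Fin d) (Fin d) ℤ) (J : Matrix (Fin d) (Fin d) ℝ)
    (hJ : ∀ g, ((A g).map (Int.cast : ℤ → ℝ))ᵀ * J * (A g).map (Int.cast : ℤ → ℝ) = J)
    (h : G → Fin d → ℤ) (hmul : ∀ k ∈ K, ∀ l ∈ K, h (k * l) = h k + h l)
    (hsurj : ∀ v, ∃ k ∈ K, h k = v) (heq : ∀ g, ∀ k ∈ K, h (g * k * g⁻¹) = A g *ᵥ h k)
    (hker : ∀ k ∈ K, h k = 0 → ∃ m : ℕ, 0 < m ∧ k ^ m ∈ ⁅K, K⁆ ⊔
      Subgroup.closure {c | c ∈ K ∧ ((∀ g, g * c * g⁻¹ * c⁻¹ ∈ ⁅K, K⁆) ∨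
        ∃ M : Subgroup G, ⁅M, M⁆ = M ∧ N ⊔ M = ⊤ ∧ (∀ x ∈ M, x * c = c * x) ∧
          ∃ w ∈ Subgroup.center G, c * w ∈ M)})
    (ht : ∀ x : Fin d → ℝ, x ≠ 0 → ∃ t : G, (A t - 1) * (A t - 1) = 0 ∧
      x ⬝ᵥ (J *ᵥ (((A t - 1).map (Int.cast : ℤ → ℝ)) *ᵥ x)) ≠ 0)
    [Nontrivial V] (ρ : G →* Module.End ℂ V)
    (hρ : ∀ F : Submodule ℂ V, (∀ g, ∀ v ∈ F, ρ g v ∈ F) → F = ⊥ ∨ F = ⊤)
    (hK : ∀ k ∈ K, ρ k = 1) (z : G → Module.End ℂ V) (hz : Crossed ρ z) :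
    ∀ k ∈ K, z k = 0 := by
  refine vanish_core K A J hJ h hmul hsurj heq ht ρ hρ hK z hz ?_
  intro k hk hk0
  obtain ⟨m, hm, hkm⟩ := hker k hk hk0
  have h1 : ⁅K, K⁆ ⊔ Subgroup.closure {c | c ∈ K ∧ ((∀ g, g * c * g⁻¹ * c⁻¹ ∈ ⁅K, K⁆) ∨
        ∃ M : Subgroup G, ⁅M, M⁆ = M ∧ N ⊔ M = ⊤ ∧ (∀ x ∈ M, x * c = c * x) ∧
          ∃ w ∈ Subgroup.center G, c * w ∈ M)} ≤ Z0 hz hK := by
    refine sup_le (comm_le hz hK) ((Subgroup.closure_le _).2 ?_)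
    rintro c ⟨hc, hc' | ⟨M, hM, hNM, hcM, w, hw, hcw⟩⟩
    · exact central_mem hz hK hperf hρ c hc hc'
    · exact ⟨hc, c2_zero hperf K N hfin hρ hK hz c hc M hM hNM w hw hcw hcM⟩
  have h2 := (h1 hkm).2
  rw [powK hz hK hk] at h2
  rcases smul_eq_zero.1 h2 with h3 | h3
  · exact absurd (Nat.cast_eq_zero.1 h3) hm.ne'
  · exact h3

end Pool.Agent.Helper32.Cap
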