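import Mathlib

set_option autoImplicit false

namespace Pool.Agent.Helper32.RankTwo

/-- The signed sumset `[0,s]_± A`: all `∑ c_a a` over `a ∈ A` with integers `c_a`,
`∑ |c_a| ≤ s`. -/
def signedSumset {G : Type*} [AddCommGroup G] (A : Finset G) (s : ℕ) : Set G :=
  {g | ∃ c : G → ℤ, ∑ a ∈ A, |c a| ≤ (s : ℤ) ∧ ∑ a ∈ A, c a • a = g}

/-- `φ_±(G,[0,s])`: the least size of a finite subset `A` with `[0,s]_± A = G`. -/
noncomputable def phi (G : Type*) [AddCommGroup G] (s : ℕ) : ℕ :=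
  sInf {k | ∃ A : Finset G, A.card = k ∧ signedSumset A s = Set.univ}

/-- The numerical condition on `t = ⌊(2s+1)/n₁⌋` and `m = n₂/n₁`: either `t` is odd and
`2m < t²`, or `t` is even, `j = t²/2 - m` is a nonnegative integer and one of
`2j ≥ t`, `4 ∣ j`, or (`4 ∣ t` and `2 ∣ j`) holds. -/
def Cond (t m : ℕ) : Prop :=
  (Odd t ∧ 2 * m < t ^ 2) ∨
  (Even t ∧ ∃ j : ℕ, 2 * m + 2 * j = t ^ 2 ∧ (t ≤ 2 * j ∨ 4 ∣ j ∨ (4 ∣ t ∧ 2 ∣ j)))

end Pool.Agent.Helper32.RankTwo
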