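import Pool.Agent.Helper32.RankTwoDefs

set_option autoImplicit false

namespace Pool.Agent.Helper32.RankTwo

/-- Every element is a signed combination of `a` and `b` of length at most `s`. -/
def Span2 {G : Type*} [AddCommGroup G] (a b : G) (s : ℕ) : Prop :=
  ∀ g : G, ∃ x y : ℤ, |x| + |y| ≤ (s : ℤ) ∧ x • a + y • b = g

lemma noCyc {G : Type*} [AddCommGroup G] {n m : ℕ} (hn : 2 ≤ n)
    (e : G ≃+ ZMod n × ZMod (n * m)) :
    ¬ ∃ a : G, ∀ g : G, ∃ x : ℤ, x • a = g := by
  rintro ⟨a, ha⟩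
  have : Fact (1 < n) := ⟨by omega⟩
  let φ : ZMod (n * m) →+* ZMod n := ZMod.castHom (Dvd.intro m rfl) (ZMod n)
  obtain ⟨x, hx⟩ := ha (e.symm (1, 0))
  obtain ⟨y, hy⟩ := ha (e.symm (0, 1))
  have hx' : x • e a = (1, 0) := by rw [← map_zsmul, hx]; simp
  have hy' : y • e a = (0, 1) := by rw [← map_zsmul, hy]; simp
  have h1 : (x : ZMod n) * (e a).1 = 1 := by
    have := congrArg Prod.fst hx'
    simpa [zsmul_eq_mul] using this
  have h2 : (x : ZMod (n * m)) * (e a).2 = 0 := by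
    have := congrArg Prod.snd hx'
    simpa [zsmul_eq_mul] using this
  have h3 : (y : ZMod n) * (e a).1 = 0 := by
    have := congrArg Prod.fst hy'
    simpa [zsmul_eq_mul] using this
  have h4 : (y : ZMod (n * m)) * (e a).2 = 1 := by
    have := congrArg Prod.snd hy'
    simpa [zsmul_eq_mul] using this
  have h2' : (x : ZMod n) * φ (e a).2 = 0 := by
    have := congrArg φ h2
    simpa using this
  have h4' : (y : ZMod n) * φ (e a).2 = 1 := by
    have := congrArg φ h4
    simpa using this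
  have : (1 : ZMod n) = 0 := by
    calc (1 : ZMod n) = ((x : ZMod n) * (e a).1) * ((y : ZMod n) * φ (e a).2) := by rw [h1, h4']; simp
      _ = ((x : ZMod n) * φ (e a).2) * ((y : ZMod n) * (e a).1) := by ring
      _ = 0 := by rw [h2', h3]; simp
  exact one_ne_zero this

lemma phi_eq_two_iff {G : Type*} [AddCommGroup G] {n m : ℕ} (hn : 2 ≤ n)
    (e : G ≃+ ZMod n × ZMod (n * m)) (s : ℕ) :
    phi G s = 2 ↔ ∃ a b : G, Span2 a b s := by
  classical
  constructor
  · intro h
    have hne : {k | ∃ A : Finset G, A.card = k ∧ signedSumset A s = Set.univ}.Nonempty := by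
      by_contra hcon
      rw [Set.not_nonempty_iff_eq_empty] at hcon
      unfold phi at h
      rw [hcon] at h
      simp at h
    have hmem := Nat.sInf_mem hne
    have h' : sInf {k | ∃ A : Finset G, A.card = k ∧ signedSumset A s = Set.univ} = 2 := h
    rw [h'] at hmem
    obtain ⟨A, hA, hspan⟩ := hmem
    obtain ⟨a, b, hab, rfl⟩ := Finset.card_eq_two.mp hA
    refine ⟨a, b, fun g => ?_⟩
    have hg : g ∈ signedSumset ({a, b} : Finset G) s := by rw [hspan]; trivial
    obtain ⟨c, hc1, hc2⟩ := hg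
    rw [Finset.sum_pair hab] at hc1 hc2
    exact ⟨c a, c b, hc1, hc2⟩
  · rintro ⟨a, b, hab⟩
    have hne : a ≠ b := by
      rintro rfl
      apply noCyc hn e
      refine ⟨a, fun g => ?_⟩
      obtain ⟨x, y, -, hxy⟩ := hab g
      exact ⟨x + y, by rw [add_smul]; exact hxy⟩
    have h2 : (2 : ℕ) ∈ {k | ∃ A : Finset G, A.card = k ∧ signedSumset A s = Set.univ} := by
      refine ⟨{a, b}, Finset.card_pair hne, ?_⟩
      rw [Set.eq_univ_iff_forall]
      intro g
      obtain ⟨x, y, h1, h2⟩ := hab g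
      refine ⟨fun z => if z = a then x else y, ?_, ?_⟩
      · rw [Finset.sum_pair hne]
        simpa [hne.symm] using h1
      · rw [Finset.sum_pair hne]
        simpa [hne.symm] using h2
    unfold phi
    apply le_antisymm
    · exact Nat.sInf_le h2
    · apply le_csInf ⟨2, h2⟩
      rintro k ⟨A, hA, hspan⟩
      by_contra hk
      have hk' : A.card ≤ 1 := by omega
      rw [Finset.card_le_one_iff_subset_singleton] at hk'
      obtain ⟨z, hz⟩ := hk'
      apply noCyc hn e
      refine ⟨z, fun g => ?_⟩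
      have hg : g ∈ signedSumset A s := by rw [hspan]; trivial
      obtain ⟨c, -, hc2⟩ := hg
      rcases Finset.subset_singleton_iff.mp hz with rfl | rfl
      · refine ⟨0, ?_⟩
        simpa using hc2
      · refine ⟨c z, ?_⟩
        simpa using hc2


/-! ### Extraction of a lattice from a spanning pair -/

lemma pair_int {G : Type*} [AddCommGroup G] {n m : ℕ}
    (e : G ≃+ ZMod n × ZMod (n * m)) (a b : G) :
    ∃ γ δ α β : ℤ, e a = ((γ : ZMod n), (α : ZMod (n * m))) ∧
      e b = ((δ : ZMod n), (β : ZMod (n * m))) := by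
  obtain ⟨γ, hγ⟩ := ZMod.intCast_surjective (e a).1
  obtain ⟨α, hα⟩ := ZMod.intCast_surjective (e a).2
  obtain ⟨δ, hδ⟩ := ZMod.intCast_surjective (e b).1
  obtain ⟨β, hβ⟩ := ZMod.intCast_surjective (e b).2
  exact ⟨γ, δ, α, β, by rw [hγ, hα], by rw [hδ, hβ]⟩

lemma span_int_iff {G : Type*} [AddCommGroup G] {n m : ℕ}
    (e : G ≃+ ZMod n × ZMod (n * m)) (a b : G) (s : ℕ) (γ δ α β : ℤ)
    (ha : e a = ((γ : ZMod n), (α : ZMod (n * m))))
    (hb : e b = ((δ : ZMod n), (β : ZMod (n * m)))) :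
    Span2 a b s ↔ ∀ G1 G2 : ℤ, ∃ x y : ℤ, |x| + |y| ≤ (s : ℤ) ∧
      (n : ℤ) ∣ x * γ + y * δ - G1 ∧ ((n : ℤ) * m) ∣ x * α + y * β - G2 := by
  have key : ∀ (x y G1 G2 : ℤ), (x • a + y • b = e.symm ((G1 : ZMod n), (G2 : ZMod (n * m))) ↔
      (n : ℤ) ∣ x * γ + y * δ - G1 ∧ ((n : ℤ) * m) ∣ x * α + y * β - G2) := by
    intro x y G1 G2
    rw [← e.apply_eq_iff_eq, map_add, map_zsmul, map_zsmul, ha, hb, e.apply_symm_apply,
      Prod.ext_iff]
    have h1 : (x • ((γ : ZMod n), (α : ZMod (n * m))) + y • ((δ : ZMod n), (β : ZMod (n * m)))).1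
        = ((x * γ + y * δ : ℤ) : ZMod n) := by
      simp [zsmul_eq_mul]
    have h2 : (x • ((γ : ZMod n), (α : ZMod (n * m))) + y • ((δ : ZMod n), (β : ZMod (n * m)))).2
        = ((x * α + y * β : ℤ) : ZMod (n * m)) := by
      simp [zsmul_eq_mul]
    rw [h1, h2]
    dsimp only
    rw [eq_comm, ZMod.intCast_eq_intCast_iff_dvd_sub,
      eq_comm (a := ((x * α + y * β : ℤ) : ZMod (n * m))), ZMod.intCast_eq_intCast_iff_dvd_sub]
    push_cast
    rfl
  constructor
  · intro h G1 G2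
    obtain ⟨x, y, h1, h2⟩ := h (e.symm ((G1 : ZMod n), (G2 : ZMod (n * m))))
    exact ⟨x, y, h1, (key x y G1 G2).mp h2⟩
  · intro h g
    obtain ⟨G1, hG1⟩ := ZMod.intCast_surjective (e g).1
    obtain ⟨G2, hG2⟩ := ZMod.intCast_surjective (e g).2
    obtain ⟨x, y, h1, h2⟩ := h G1 G2
    refine ⟨x, y, h1, ?_⟩
    rw [(key x y G1 G2).mpr h2, hG1, hG2]
    simp

/-- covering of `ℤ²` by balls around `n • L`, `L = {(u,v) : m ∣ α u + β v}`. -/
def Cover (n s m α β : ℤ) : Prop :=
  ∀ X Y : ℤ, ∃ u v : ℤ, |X - n * u| + |Y - n * v| ≤ s ∧ m ∣ α * u + β * v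

lemma cover_of_span {G : Type*} [AddCommGroup G] {n m : ℕ} (hn : 2 ≤ n)
    (e : G ≃+ ZMod n × ZMod (n * m)) (a b : G) (s : ℕ) (h : Span2 a b s) :
    ∃ α β : ℤ, (∃ r₁ r₂ : ℤ, (m : ℤ) ∣ r₁ * α + r₂ * β - 1) ∧ Cover n s m α β := by
  obtain ⟨γ, δ, α, β, ha, hb⟩ := pair_int e a b
  rw [span_int_iff e a b s γ δ α β ha hb] at h
  refine ⟨α, β, ?_, ?_⟩
  · obtain ⟨x, y, -, -, h2⟩ := h 0 1
    exact ⟨x, y, dvd_trans (Dvd.intro_left _ rfl) h2⟩
  · intro X Y
    obtain ⟨x, y, h1, h2, h3⟩ := h (X * γ + Y * δ) (X * α + Y * β)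
    obtain ⟨x1, y1, -, p1, q1⟩ := h 1 0
    obtain ⟨x2, y2, -, p2, q2⟩ := h 0 1
    have q1' : (n : ℤ) ∣ x1 * α + y1 * β - 0 := dvd_trans (Dvd.intro _ rfl) q1
    have q2' : (n : ℤ) ∣ x2 * α + y2 * β - 1 := dvd_trans (Dvd.intro _ rfl) q2
    have h3' : (n : ℤ) ∣ x * α + y * β - (X * α + Y * β) := dvd_trans (Dvd.intro _ rfl) h3
    obtain ⟨k1, hk1⟩ := p1
    obtain ⟨k2, hk2⟩ := q1'
    obtain ⟨k3, hk3⟩ := p2
    obtain ⟨k4, hk4⟩ := q2'
    obtain ⟨k5, hk5⟩ := h2
    obtain ⟨k6, hk6⟩ := h3'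
    -- determinant is a unit modulo `n`
    have hD : (n : ℤ) ∣ (x1 * y2 - x2 * y1) * (γ * β - α * δ) - 1 := by
      refine ⟨k1 * (x2 * α + y2 * β) + k4 - k2 * (x2 * γ + y2 * δ), ?_⟩
      linear_combination (x2 * α + y2 * β) * hk1 + hk4 - (x2 * γ + y2 * δ) * hk2
    have hx : (n : ℤ) ∣ (x - X) * (γ * β - α * δ) := by
      refine ⟨k5 * β - k6 * δ, ?_⟩
      linear_combination β * hk5 - δ * hk6
    have hy : (n : ℤ) ∣ (y - Y) * (γ * β - α * δ) := by
      refine ⟨k6 * γ - k5 * α, ?_⟩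
      linear_combination γ * hk6 - α * hk5
    have unitarg : ∀ z : ℤ, (n : ℤ) ∣ z * (γ * β - α * δ) → (n : ℤ) ∣ z := by
      intro z hz
      obtain ⟨k, hk⟩ := hz
      obtain ⟨l, hl⟩ := hD
      refine ⟨k * (x1 * y2 - x2 * y1) - z * l, ?_⟩
      linear_combination (x1 * y2 - x2 * y1) * hk - z * hl
    obtain ⟨u, hu⟩ := unitarg _ hx
    obtain ⟨v, hv⟩ := unitarg _ hy
    refine ⟨-u, -v, ?_, ?_⟩
    · have e1 : X - n * (-u) = x := by linarith
      have e2 : Y - n * (-v) = y := by linarith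
      rw [e1, e2]; exact h1
    · obtain ⟨w, hw⟩ := h3
      refine ⟨-w, ?_⟩
      have hn' : (n : ℤ) ≠ 0 := by
        have : (0 : ℤ) < n := by exact_mod_cast (by omega : 0 < n)
        exact this.ne'
      apply mul_left_cancel₀ hn'
      linear_combination (-1 : ℤ) * hw + α * hu + β * hv

/-- converse: a covering gives a spanning pair, if the linear form has a unimodular complement. -/
lemma span_of_cover {G : Type*} [AddCommGroup G] {n m : ℕ}
    (e : G ≃+ ZMod n × ZMod (n * m)) (s : ℕ) (γ δ α β : ℤ) (hdet : γ * β - α * δ = 1)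
    (hc : Cover n s m α β) : ∃ a b : G, Span2 a b s := by
  refine ⟨e.symm ((γ : ZMod n), (α : ZMod (n * m))), e.symm ((δ : ZMod n), (β : ZMod (n * m))), ?_⟩
  rw [span_int_iff e _ _ s γ δ α β (by simp) (by simp)]
  intro G1 G2
  obtain ⟨u, v, h1, h2⟩ := hc (G1 * β - G2 * δ) (G2 * γ - G1 * α)
  refine ⟨_, _, h1, ?_, ?_⟩
  · refine ⟨-(u * γ + v * δ), ?_⟩
    linear_combination G1 * hdet
  · obtain ⟨w, hw⟩ := h2
    refine ⟨-w, ?_⟩
    linear_combination G2 * hdet - n * hw

/-! ### Rotated coordinates and blocks -/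

/-- membership of the lattice in the coordinates `p = u + v`, `q = u - v`. -/
def InL (m α β p q : ℤ) : Prop := ∃ u v : ℤ, p = u + v ∧ q = u - v ∧ m ∣ α * u + β * v

lemma InL.sub {m α β p q p' q' : ℤ} (h : InL m α β p q) (h' : InL m α β p' q') :
    InL m α β (p - p') (q - q') := by
  obtain ⟨u, v, h1, h2, h3⟩ := h
  obtain ⟨u', v', h1', h2', h3'⟩ := h'
  refine ⟨u - u', v - v', by linarith, by linarith, ?_⟩
  have : α * (u - u') + β * (v - v') = (α * u + β * v) - (α * u' + β * v') := by ring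
  rw [this]; exact dvd_sub h3 h3'

lemma InL.swap {m α β p q : ℤ} (h : InL m α β p q) : InL m α (-β) q p := by
  obtain ⟨u, v, h1, h2, h3⟩ := h
  refine ⟨u, -v, by linarith, by linarith, ?_⟩
  have : α * u + -β * -v = α * u + β * v := by ring
  rw [this]; exact h3

/-- every `a × b` block contains a lattice point -/
def Hit (m α β a b : ℤ) : Prop :=
  ∀ A B : ℤ, ∃ p q : ℤ, A ≤ p ∧ p < A + a ∧ B ≤ q ∧ q < B + b ∧ InL m α β p q

lemma abs_add_abs_le_iff (x y s : ℤ) : |x| + |y| ≤ s ↔ |x + y| ≤ s ∧ |x - y| ≤ s := by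
  constructor
  · intro h
    refine ⟨(abs_add_le x y).trans h, (abs_sub x y).trans h⟩
  · rintro ⟨h1, h2⟩
    rw [abs_le] at h1 h2
    rcases abs_cases x with ⟨hx, _⟩ | ⟨hx, _⟩ <;> rcases abs_cases y with ⟨hy, _⟩ | ⟨hy, _⟩ <;>
      rw [hx, hy] <;> linarith

lemma cover_rot {n s m α β : ℤ} (h : Cover n s m α β) (P Q : ℤ) (hPQ : Even (P - Q)) :
    ∃ p q : ℤ, |P - n * p| ≤ s ∧ |Q - n * q| ≤ s ∧ InL m α β p q := by
  obtain ⟨k, hk⟩ := hPQ
  obtain ⟨u, v, h1, h2⟩ := h (Q + k) k
  rw [abs_add_abs_le_iff] at h1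
  refine ⟨u + v, u - v, ?_, ?_, u, v, rfl, rfl, h2⟩
  · have : P - n * (u + v) = Q + k - n * u + (k - n * v) := by linarith
    rw [this]; exact h1.1
  · have : Q - n * (u - v) = Q + k - n * u - (k - n * v) := by linarith
    rw [this]; exact h1.2

lemma cover_of_rot {n s m α β : ℤ}
    (h : ∀ P Q : ℤ, Even (P - Q) → ∃ p q : ℤ, |P - n * p| ≤ s ∧ |Q - n * q| ≤ s ∧ InL m α β p q) :
    Cover n s m α β := by
  intro X Y
  obtain ⟨p, q, h1, h2, u, v, rfl, rfl, h3⟩ := h (X + Y) (X - Y) ⟨Y, by ring⟩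
  refine ⟨u, v, ?_, h3⟩
  rw [abs_add_abs_le_iff]
  constructor
  · have : X - n * u + (Y - n * v) = X + Y - n * (u + v) := by ring
    rw [this]; exact h1
  · have : X - n * u - (Y - n * v) = X - Y - n * (u - v) := by ring
    rw [this]; exact h2

/-- from a covering to blocks, the restricted form -/
lemma hit_of_cover_par {n s m α β t : ℤ} (hn : 0 < n) (h : Cover n s m α β)
    (ht : 2 * s + 1 < n * (t + 1)) (A B : ℤ) (hAB : Even (n * (A - B))) :
    ∃ p q : ℤ, A ≤ p ∧ p < A + t ∧ B ≤ q ∧ q < B + t ∧ InL m α β p q := by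
  obtain ⟨p, q, h1, h2, h3⟩ := cover_rot h (n * (A - 1) + s + 1) (n * (B - 1) + s + 1)
    (by have : n * (A - 1) + s + 1 - (n * (B - 1) + s + 1) = n * (A - B) := by ring
        rw [this]; exact hAB)
  rw [abs_le] at h1 h2
  refine ⟨p, q, ?_, ?_, ?_, ?_, h3⟩
  · have : n * (A - 1) < n * p := by linarith
    have := lt_of_mul_lt_mul_left this hn.le
    omega
  · have : n * p < n * (A + t) := by nlinarith
    exact lt_of_mul_lt_mul_left this hn.le
  · have : n * (B - 1) < n * q := by linarith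
    have := lt_of_mul_lt_mul_left this hn.le
    omega
  · have : n * q < n * (B + t) := by nlinarith
    exact lt_of_mul_lt_mul_left this hn.le

/-- from a covering to blocks, generic form -/
lemma hit_of_cover {n s m α β t : ℤ} (hn : 0 < n) (h : Cover n s m α β)
    (ht : 2 * s + 2 < n * (t + 1)) : Hit m α β t t := by
  intro A B
  by_cases hAB : Even (n * (A - B))
  · exact hit_of_cover_par hn h (by linarith) A B hAB
  · rw [Int.not_even_iff_odd] at hAB
    obtain ⟨p, q, h1, h2, h3⟩ := cover_rot h (n * (A - 1) + s + 2) (n * (B - 1) + s + 1)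
      (by have : n * (A - 1) + s + 2 - (n * (B - 1) + s + 1) = n * (A - B) + 1 := by ring
          rw [this]; exact hAB.add_one)
    rw [abs_le] at h1 h2
    refine ⟨p, q, ?_, ?_, ?_, ?_, h3⟩
    · have : n * (A - 1) < n * p := by linarith
      have := lt_of_mul_lt_mul_left this hn.le
      omega
    · have : n * p < n * (A + t) := by nlinarith
      exact lt_of_mul_lt_mul_left this hn.le
    · have : n * (B - 1) < n * q := by linarith
      have := lt_of_mul_lt_mul_left this hn.le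
      omega
    · have : n * q < n * (B + t) := by nlinarith
      exact lt_of_mul_lt_mul_left this hn.le

/-- from blocks to a covering -/
lemma cover_of_hit {n s m α β t : ℤ} (hn : 0 < n) (ht : n * t ≤ 2 * s + 1)
    (h : Hit m α β t t) : Cover n s m α β := by
  apply cover_of_rot
  intro P Q _
  obtain ⟨p, q, h1, h2, h3, h4, h5⟩ := h (-((s - P) / n)) (-((s - Q) / n))
  refine ⟨p, q, ?_, ?_, h5⟩
  · have e1 := Int.emod_add_mul_ediv (s - P) n
    have e2 := Int.emod_nonneg (s - P) hn.ne'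
    have e3 := Int.emod_lt_of_pos (s - P) hn
    have h1' : n * (-((s - P) / n)) ≤ n * p := mul_le_mul_of_nonneg_left h1 hn.le
    have h2' : n * p ≤ n * (-((s - P) / n) + t - 1) := mul_le_mul_of_nonneg_left (by linarith) hn.le
    rw [abs_le]
    constructor <;> nlinarith
  · have e1 := Int.emod_add_mul_ediv (s - Q) n
    have e2 := Int.emod_nonneg (s - Q) hn.ne'
    have e3 := Int.emod_lt_of_pos (s - Q) hn
    have h1' : n * (-((s - Q) / n)) ≤ n * q := mul_le_mul_of_nonneg_left h3 hn.le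
    have h2' : n * q ≤ n * (-((s - Q) / n) + t - 1) := mul_le_mul_of_nonneg_left (by linarith) hn.le
    rw [abs_le]
    constructor <;> nlinarith

/-! ### Counting -/

/-- cells of an `a × b` block in one parity class -/
def cells (a b σ : ℕ) : Finset (ℕ × ℕ) :=
  ((Finset.range a) ×ˢ (Finset.range b)).filter (fun x => (x.1 + x.2 + σ) % 2 = 0)

lemma inner_sum (i σ b : ℕ) :
    ∑ j ∈ Finset.range b, (if (i + j + σ) % 2 = 0 then 1 else 0) = (b + 1 - (i + σ) % 2) / 2 := by
  induction b with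
  | zero => simp; omega
  | succ b ih =>
    rw [Finset.sum_range_succ, ih]
    split_ifs with h
    · omega
    · omega

lemma card_cells (a b σ : ℕ) :
    (cells a b σ).card = ∑ i ∈ Finset.range a, (b + 1 - (i + σ) % 2) / 2 := by
  unfold cells
  rw [Finset.card_filter, Finset.sum_product]
  apply Finset.sum_congr rfl
  intro i _
  exact inner_sum i σ b

lemma card_cells_one (a b : ℕ) : (cells a b 1).card = a * b / 2 := by
  rw [card_cells]
  induction a with
  | zero => simp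
  | succ a ih =>
    rw [Finset.sum_range_succ, ih, Nat.succ_mul]
    rcases Nat.even_or_odd' a with ⟨k, rfl | rfl⟩
    · have e1 : 2 * k * b / 2 = k * b := by
        rw [mul_assoc]; exact Nat.mul_div_cancel_left _ (by norm_num)
      have e2 : (2 * k + 1) % 2 = 1 := by omega
      rw [e1, e2, mul_assoc]
      omega
    · rcases Nat.even_or_odd' b with ⟨l, rfl | rfl⟩
      · have e1 : (2 * k + 1) * (2 * l) / 2 = (2 * k + 1) * l := by
          rw [show (2 * k + 1) * (2 * l) = 2 * ((2 * k + 1) * l) by ring]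
          exact Nat.mul_div_cancel_left _ (by norm_num)
        have e3 : ((2 * k + 1) * (2 * l) + 2 * l) / 2 = (2 * k + 1) * l + l := by
          rw [show (2 * k + 1) * (2 * l) + 2 * l = 2 * ((2 * k + 1) * l + l) by ring]
          exact Nat.mul_div_cancel_left _ (by norm_num)
        rw [e1, e3]
        have e2 : (2 * k + 1 + 1) % 2 = 0 := by omega
        rw [e2]
        omega
      · have e1 : (2 * k + 1) * (2 * l + 1) = 2 * (2 * k * l + k + l) + 1 := by ring
        rw [e1]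
        have e2 : (2 * k + 1 + 1) % 2 = 0 := by omega
        rw [e2]
        omega

lemma card_cells_zero (a b : ℕ) : (cells a b 0).card = (a * b + 1) / 2 := by
  rw [card_cells]
  induction a with
  | zero => simp
  | succ a ih =>
    rw [Finset.sum_range_succ, ih, Nat.succ_mul]
    rcases Nat.even_or_odd' a with ⟨k, rfl | rfl⟩
    · have e1 : (2 * k * b + 1) / 2 = k * b := by
        rw [mul_assoc]; omega
      have e2 : (2 * k + 0) % 2 = 0 := by omega
      rw [e1, e2, mul_assoc]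
      omega
    · rcases Nat.even_or_odd' b with ⟨l, rfl | rfl⟩
      · have e1 : (2 * k + 1) * (2 * l) = 2 * ((2 * k + 1) * l) := by ring
        rw [e1]
        have e2 : (2 * k + 1 + 0) % 2 = 1 := by omega
        rw [e2]
        omega
      · have e1 : (2 * k + 1) * (2 * l + 1) = 2 * (2 * k * l + k + l) + 1 := by ring
        rw [e1]
        have e2 : (2 * k + 1 + 0) % 2 = 1 := by omega
        rw [e2]
        omega

lemma count_le {m : ℕ} (hm : 0 < m) (α β : ℤ)
    (hco : ∃ r₁ r₂ : ℤ, (m : ℤ) ∣ r₁ * α + r₂ * β - 1) (a b σ : ℕ)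
    (h : ∀ A B : ℤ, Even (A - B + σ) →
      ∃ p q : ℤ, A ≤ p ∧ p < A + a ∧ B ≤ q ∧ q < B + b ∧ InL m α β p q) :
    m ≤ (cells a b σ).card := by
  have : NeZero m := ⟨hm.ne'⟩
  obtain ⟨r₁, r₂, k, hk⟩ := hco
  let f : ℕ × ℕ → ZMod m := fun x =>
    ((α * (((x.1 : ℤ) + (x.2 + σ)) / 2) + β * (((x.1 : ℤ) - (x.2 + σ)) / 2) : ℤ) : ZMod m)
  have hs : Set.SurjOn f (cells a b σ : Set (ℕ × ℕ)) ((Finset.univ : Finset (ZMod m)) : Set (ZMod m)) := by
    intro c _
    obtain ⟨C, rfl⟩ := ZMod.intCast_surjective c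
    obtain ⟨p, q, h1, h2, h3, h4, u, v, hu, hv, w, hw⟩ := h (-(C * r₁ + C * r₂)) (σ - (C * r₁ - C * r₂))
      ⟨-(C * r₂), by ring⟩
    refine ⟨((p + (C * r₁ + C * r₂)).toNat, (q + (C * r₁ - C * r₂) - σ).toNat), ?_, ?_⟩
    · have e1 : (((p + (C * r₁ + C * r₂)).toNat : ℕ) : ℤ) = p + (C * r₁ + C * r₂) :=
        Int.toNat_of_nonneg (by linarith)
      have e2 : (((q + (C * r₁ - C * r₂) - σ).toNat : ℕ) : ℤ) = q + (C * r₁ - C * r₂) - σ :=
        Int.toNat_of_nonneg (by linarith)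
      simp only [cells, Finset.coe_filter, Finset.mem_product, Finset.mem_range, Set.mem_ofPred_eq]
      refine ⟨⟨?_, ?_⟩, ?_⟩
      · zify; rw [e1]; linarith
      · zify; rw [e2]; linarith
      · zify; rw [e1, e2, hu, hv]
        have : u + v + (C * r₁ + C * r₂) + (u - v + (C * r₁ - C * r₂) - σ) + σ
          = 2 * (u + C * r₁) := by ring
        rw [this]
        simp
    · have e1 : (((p + (C * r₁ + C * r₂)).toNat : ℕ) : ℤ) = p + (C * r₁ + C * r₂) :=
        Int.toNat_of_nonneg (by linarith)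
      have e2 : (((q + (C * r₁ - C * r₂) - σ).toNat : ℕ) : ℤ) = q + (C * r₁ - C * r₂) - σ :=
        Int.toNat_of_nonneg (by linarith)
      simp only [f]
      rw [e1, e2, hu, hv]
      have e3 : (u + v + (C * r₁ + C * r₂) + (u - v + (C * r₁ - C * r₂) - σ + σ)) / 2
          = u + C * r₁ := by
        have : (u + v + (C * r₁ + C * r₂) + (u - v + (C * r₁ - C * r₂) - σ + σ))
          = 2 * (u + C * r₁) := by ring
        rw [this]
        exact Int.mul_ediv_cancel_left _ (by norm_num)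
      have e4 : (u + v + (C * r₁ + C * r₂) - (u - v + (C * r₁ - C * r₂) - σ + σ)) / 2
          = v + C * r₂ := by
        have : (u + v + (C * r₁ + C * r₂) - (u - v + (C * r₁ - C * r₂) - σ + σ))
          = 2 * (v + C * r₂) := by ring
        rw [this]
        exact Int.mul_ediv_cancel_left _ (by norm_num)
      rw [e3, e4, ZMod.intCast_eq_intCast_iff_dvd_sub]
      refine ⟨-(w + C * k), ?_⟩
      linear_combination -hw - C * hk
  have := Finset.card_le_card_of_surjOn f hs
  rw [Finset.card_univ, ZMod.card] at this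
  exact this

/-! ### Necessity -/

lemma gap {m : ℕ} (hm : 0 < m) (α β : ℤ)
    (hco : ∃ r₁ r₂ : ℤ, (m : ℤ) ∣ r₁ * α + r₂ * β - 1) (t : ℕ) (ht : 0 < t)
    (hH : Hit m α β t t) (h2m : t * (t - 1) < 2 * m) :
    ∃ e : ℤ, |e| < t ∧ InL m α β e t := by
  have hex : ∃ A B : ℤ, ∀ p q : ℤ, A ≤ p → p < A + t → B ≤ q → q < B + (t - 1 : ℕ) →
      ¬ InL m α β p q := by
    by_contra hcon
    push Not at hcon
    have h1 := count_le hm α β hco t (t - 1) 0 (fun A B _ => by
      obtain ⟨p, q, a1, a2, a3, a4, a5⟩ := hcon A B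
      exact ⟨p, q, a1, a2, a3, a4, a5⟩)
    rw [card_cells_zero] at h1
    have h2 : Even (t * (t - 1)) := Nat.even_mul_pred_self t
    obtain ⟨k, hk⟩ := h2
    omega
  obtain ⟨A, B, hAB⟩ := hex
  have ht' : ((t - 1 : ℕ) : ℤ) = (t : ℤ) - 1 := by
    have : 1 ≤ t := ht
    push_cast [Nat.cast_sub this]; ring
  rw [ht'] at hAB
  obtain ⟨p1, q1, a1, a2, a3, a4, a5⟩ := hH A (B - 1)
  obtain ⟨p2, q2, b1, b2, b3, b4, b5⟩ := hH A B
  have hq1 : q1 = B - 1 := by
    by_contra hne
    exact hAB p1 q1 a1 a2 (by omega) (by omega) a5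
  have hq2 : q2 = B + t - 1 := by
    by_contra hne
    exact hAB p2 q2 b1 b2 (by omega) (by omega) b5
  refine ⟨p2 - p1, ?_, ?_⟩
  · rw [abs_lt]; constructor <;> linarith
  · have := b5.sub a5
    have e1 : q2 - q1 = t := by rw [hq1, hq2]; ring
    rwa [e1] at this

lemma Hit.swap {m α β a b : ℤ} (h : Hit m α β a b) : Hit m α (-β) b a := by
  intro A B
  obtain ⟨p, q, h1, h2, h3, h4, h5⟩ := h B A
  exact ⟨q, p, h3, h4, h1, h2, h5.swap⟩

lemma det_dvd {m α β : ℤ} (hco : ∃ r₁ r₂ : ℤ, m ∣ r₁ * α + r₂ * β - 1)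
    {u v u' v' : ℤ} (h : m ∣ α * u + β * v) (h' : m ∣ α * u' + β * v') :
    m ∣ u * v' - u' * v := by
  obtain ⟨r₁, r₂, k, hk⟩ := hco
  obtain ⟨l, hl⟩ := h
  obtain ⟨l', hl'⟩ := h'
  refine ⟨r₁ * (v' * l - v * l') + r₂ * (u * l' - u' * l) - k * (u * v' - u' * v), ?_⟩
  linear_combination (r₁ * v' - r₂ * u') * hl + (r₂ * u - r₁ * v) * hl' - (u * v' - u' * v) * hk

lemma even_case {m : ℕ} (hm : 0 < m) (α β : ℤ)
    (hco : ∃ r₁ r₂ : ℤ, (m : ℤ) ∣ r₁ * α + r₂ * β - 1) (t : ℕ) (ht : Even t)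
    (hH : Hit m α β t t) :
    ∃ j : ℕ, 2 * m + 2 * j = t ^ 2 ∧ (t ≤ 2 * j ∨ 4 ∣ j ∨ (4 ∣ t ∧ 2 ∣ j)) := by
  have h1 := count_le hm α β hco t t 0 (fun A B _ => hH A B)
  rw [card_cells_zero] at h1
  obtain ⟨h, hh⟩ := ht
  have hth : t = 2 * h := by omega
  have htt : t * t = 4 * (h * h) := by rw [hth]; ring
  have hmh : m ≤ 2 * (h * h) := by omega
  have hpos : 0 < t := by
    rcases Nat.eq_zero_or_pos t with h0 | h0
    · subst h0; omega
    · exact h0
  refine ⟨2 * (h * h) - m, ?_, ?_⟩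
  · rw [pow_two]; omega
  by_cases hsmall : 2 * m ≤ t * (t - 1)
  · left
    have e1 : t * (t - 1) = t * t - t := by
      rw [Nat.mul_sub, mul_one]
    have e2 : t ≤ t * t := Nat.le_mul_self t
    omega
  right
  push Not at hsmall
  obtain ⟨e, he, u1, v1, hu1, hv1, hL1⟩ := gap hm α β hco t hpos hH hsmall
  have hco' : ∃ r₁ r₂ : ℤ, (m : ℤ) ∣ r₁ * α + r₂ * (-β) - 1 := by
    obtain ⟨r₁, r₂, hr⟩ := hco
    exact ⟨r₁, -r₂, by simpa using hr⟩
  obtain ⟨e', he', hL2'⟩ := gap hm α (-β) hco' t hpos hH.swap hsmall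
  have hL2'' := hL2'.swap
  rw [neg_neg] at hL2''
  obtain ⟨u2, v2, hu2, hv2, hL2⟩ := hL2''
  -- determinant
  obtain ⟨κ, hκ⟩ := det_dvd hco hL1 hL2
  have hdet : (t : ℤ) * t - e * e' = 2 * m * κ := by
    have : (t : ℤ) * t - e * e' = 2 * (u1 * v2 - u2 * v1) := by
      have e1 : (t : ℤ) * t = (u2 + v2) * (u1 - v1) := by rw [← hu2, ← hv1]
      rw [e1, hu1, hv2]; ring
    rw [this, hκ]; ring
  have hT : (2 : ℤ) ≤ t := by
    have : 2 ≤ t := by omega
    exact_mod_cast this
  have hee : |e * e'| ≤ ((t : ℤ) - 1) * ((t : ℤ) - 1) := by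
    rw [abs_mul]
    exact mul_le_mul (by linarith [Int.le_sub_one_of_lt he]) (by linarith [Int.le_sub_one_of_lt he'])
      (abs_nonneg _) (by linarith)
  rw [abs_le] at hee
  have hsm : (t : ℤ) * (t - 1) + 2 ≤ 2 * m := by
    have e1 : ((t - 1 : ℕ) : ℤ) = (t : ℤ) - 1 := by
      have : 1 ≤ t := hpos
      push_cast [Nat.cast_sub this]; ring
    have e2 : Even (t * (t - 1)) := Nat.even_mul_pred_self t
    have e3 : t * (t - 1) + 2 ≤ 2 * m := by
      obtain ⟨k, hk⟩ := e2
      omega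
    have : ((t * (t - 1) + 2 : ℕ) : ℤ) ≤ ((2 * m : ℕ) : ℤ) := by exact_mod_cast e3
    push_cast at this
    rw [e1] at this
    linarith
  have hκ1 : κ = 1 := by
    have hM : (0 : ℤ) < m := by exact_mod_cast hm
    have hle : κ < 2 := by
      by_contra hge
      push Not at hge
      have : 2 * (m : ℤ) * 2 ≤ 2 * m * κ := mul_le_mul_of_nonneg_left hge (by linarith)
      nlinarith
    have hge : 0 < κ := by
      by_contra hle
      push Not at hle
      have : 2 * (m : ℤ) * κ ≤ 0 := mul_nonpos_of_nonneg_of_nonpos (by linarith) hle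
      nlinarith
    omega
  rw [hκ1, mul_one] at hdet hκ
  -- parity
  have he2 : Even e := by
    have : e = 2 * (v1 + h) := by
      have : (t : ℤ) = 2 * h := by exact_mod_cast hth
      linarith
    rw [this]; exact even_two_mul _
  have he2' : Even e' := by
    have : e' = 2 * (h - v2) := by
      have : (t : ℤ) = 2 * h := by exact_mod_cast hth
      linarith
    rw [this]; exact even_two_mul _
  obtain ⟨ε, hε⟩ := he2
  obtain ⟨ε', hε'⟩ := he2'
  have hj : ((2 * (h * h) - m : ℕ) : ℤ) = 2 * (ε * ε') := by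
    have e1 : ((2 * (h * h) - m : ℕ) : ℤ) = 2 * (h * h) - m := by
      push_cast [Nat.cast_sub hmh]; ring
    rw [e1]
    have e2 : (t : ℤ) = 2 * h := by exact_mod_cast hth
    have e3 : (4 : ℤ) * (h * h) - 4 * (ε * ε') = 2 * m := by
      rw [← hdet, e2, hε, hε']; ring
    linarith
  by_cases h4 : 4 ∣ t
  · right
    refine ⟨h4, ?_⟩
    zify; rw [hj]; exact Dvd.intro _ rfl
  · left
    have hodd : Odd h := by
      rw [← Nat.not_even_iff_odd]
      intro hev
      obtain ⟨k, hk⟩ := hev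
      exact h4 ⟨k, by omega⟩
    have hev : Even (ε * ε') := by
      by_contra hne
      rw [Int.not_even_iff_odd, Int.odd_mul] at hne
      obtain ⟨⟨a, ha⟩, ⟨b, hb⟩⟩ := hne
      obtain ⟨c, hc⟩ := hodd
      have hh' : (h : ℤ) = 2 * c + 1 := by exact_mod_cast hc
      have e2 : (t : ℤ) = 2 * h := by exact_mod_cast hth
      have U1 : u1 = 2 * (a + c + 1) := by linarith
      have V1 : v1 = 2 * (a - c) := by linarith
      have U2 : u2 = 2 * (b + c + 1) := by linarith
      have V2 : v2 = 2 * (c - b) := by linarith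
      obtain ⟨k1, hk1⟩ := hL1
      obtain ⟨k2, hk2⟩ := hL2
      have hM : (m : ℤ) ≠ 0 := by exact_mod_cast hm.ne'
      have hβ : β = u1 * k2 - u2 * k1 := by
        apply mul_left_cancel₀ hM
        linear_combination (-β) * hκ + u1 * hk2 - u2 * hk1
      have hα : -α = v1 * k2 - v2 * k1 := by
        apply mul_left_cancel₀ hM
        linear_combination α * hκ + v1 * hk2 - v2 * hk1
      obtain ⟨r₁, r₂, k, hk⟩ := hco
      have : (2 : ℤ) ∣ 1 := by
        refine ⟨-(r₁ * ((a - c) * k2 - (c - b) * k1)) + r₂ * ((a + c + 1) * k2 - (b + c + 1) * k1)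
          - 2 * ((a + c + 1) * (c - b) - (b + c + 1) * (a - c)) * k, ?_⟩
        have hα' : α = -(v1 * k2 - v2 * k1) := by linarith
        have hm' : (m : ℤ) = u1 * v2 - u2 * v1 := hκ.symm
        rw [hα', hβ, hm', U1, V1, U2, V2] at hk
        linarith
      norm_num at this
    obtain ⟨k, hk⟩ := hev
    zify
    rw [hj, hk]
    exact ⟨k, by ring⟩

lemma cond_of_hit {m : ℕ} (hm : 0 < m) (α β : ℤ)
    (hco : ∃ r₁ r₂ : ℤ, (m : ℤ) ∣ r₁ * α + r₂ * β - 1) (t : ℕ) (hH : Hit m α β t t) :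
    Cond t m := by
  rcases Nat.even_or_odd t with ht | ht
  · exact Or.inr ⟨ht, even_case hm α β hco t ht hH⟩
  · left
    refine ⟨ht, ?_⟩
    have h1 := count_le hm α β hco t t 1 (fun A B _ => hH A B)
    rw [card_cells_one] at h1
    obtain ⟨k, hk⟩ := ht
    have : t * t = 2 * (2 * (k * k) + 2 * k) + 1 := by rw [hk]; ring
    rw [pow_two]
    omega

lemma necessity {n m s : ℕ} (hn : 2 ≤ n) (hm : 0 < m) (α β : ℤ)
    (hco : ∃ r₁ r₂ : ℤ, (m : ℤ) ∣ r₁ * α + r₂ * β - 1) (hc : Cover n s m α β) :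
    Cond ((2 * s + 1) / n) m ∨
      (Odd n ∧ n ∣ s + 1 ∧ 2 * m = ((2 * s + 1) / n) ^ 2 + 1) := by
  set t := (2 * s + 1) / n with ht
  have hn0 : 0 < n := by omega
  have hdm := Nat.div_add_mod (2 * s + 1) n
  have hmod := Nat.mod_lt (2 * s + 1) hn0
  rw [← ht] at hdm
  have hlt : 2 * s + 1 < n * (t + 1) := by rw [Nat.mul_add, mul_one]; omega
  have hnZ : (0 : ℤ) < n := by exact_mod_cast hn0
  have hltZ : 2 * (s : ℤ) + 1 < n * (t + 1) := by exact_mod_cast hlt
  by_cases hgen : 2 * s + 2 < n * (t + 1)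
  · left
    exact cond_of_hit hm α β hco t (hit_of_cover hnZ hc (by exact_mod_cast hgen))
  · have heq : 2 * s + 2 = n * (t + 1) := by omega
    rcases Nat.even_or_odd n with hne | hno
    · left
      refine cond_of_hit hm α β hco t (fun A B => hit_of_cover_par hnZ hc hltZ A B ?_)
      exact Even.mul_right (by exact_mod_cast hne) _
    · have htodd : Odd t := by
        rw [← Nat.not_even_iff_odd]
        intro hte
        have : Odd (n * (t + 1)) := hno.mul hte.add_one
        rw [← heq] at this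
        obtain ⟨k, hk⟩ := this
        omega
      have hdvd : n ∣ s + 1 := by
        have h1 : n ∣ 2 * (s + 1) := ⟨t + 1, by omega⟩
        exact (Nat.Coprime.dvd_of_dvd_mul_left (Nat.Coprime.symm (Nat.coprime_two_left.mpr hno)) h1)
      have h1 := count_le hm α β hco t t 0 (fun A B hAB => hit_of_cover_par hnZ hc hltZ A B
        (Even.mul_left (by simpa using hAB) _))
      rw [card_cells_zero] at h1
      obtain ⟨k, hk⟩ := htodd
      have htt : t * t = 2 * (2 * (k * k) + 2 * k) + 1 := by rw [hk]; ring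
      by_cases hmm : 2 * m = t ^ 2 + 1
      · right
        exact ⟨hno, hdvd, hmm⟩
      · left; left
        refine ⟨⟨k, hk⟩, ?_⟩
        rw [pow_two] at hmm ⊢
        omega

/-! ### Sufficiency -/

lemma hitline {c K M w : ℤ} (hc : 0 < c) (hM : 0 < M) (hMK : M ≤ c * K) (hw : c ≤ w) (S B : ℤ) :
    ∃ i q : ℤ, 0 ≤ i ∧ i < K ∧ B ≤ q ∧ q < B + w ∧ M ∣ q - S - c * i := by
  set D := (B + w - 1 - S) % M with hD
  have hD0 : 0 ≤ D := Int.emod_nonneg _ hM.ne'
  have hD1 : D < M := Int.emod_lt_of_pos _ hM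
  have e1 := Int.emod_add_mul_ediv D c
  have e2 := Int.emod_nonneg D hc.ne'
  have e3 := Int.emod_lt_of_pos D hc
  refine ⟨D / c, B + w - 1 - D % c, Int.ediv_nonneg hD0 hc.le, ?_, by linarith, by linarith, ?_⟩
  · have : c * (D / c) < c * K := by linarith
    exact lt_of_mul_lt_mul_left this hc.le
  · have e4 : B + w - 1 - D % c - S - c * (D / c) = (B + w - 1 - S) - D := by linarith
    rw [e4, hD]
    exact Int.dvd_self_sub_emod

lemma inL_of_dvd {m r p q : ℤ} (h : 2 * m ∣ q - (2 * r + 1) * p) : InL m r (r + 1) p q := by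
  obtain ⟨w, hw⟩ := h
  refine ⟨(r + 1) * p + m * w, -(r * p) - m * w, by ring, by linarith, ⟨-w, by ring⟩⟩

lemma hit_one {m r t : ℤ} (hm : 0 < m) (hr : 0 ≤ r) (hrt : 2 * r + 1 ≤ t)
    (h : 2 * m ≤ (2 * r + 1) * t) : Hit m r (r + 1) t t := by
  intro A B
  obtain ⟨i, q, h1, h2, h3, h4, h5⟩ := hitline (c := 2 * r + 1) (K := t) (M := 2 * m) (w := t)
    (by linarith) (by linarith) h hrt ((2 * r + 1) * A) B
  refine ⟨A + i, q, by linarith, by linarith, h3, h4, inL_of_dvd ?_⟩
  have : q - (2 * r + 1) * (A + i) = q - (2 * r + 1) * A - (2 * r + 1) * i := by ring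
  rw [this]; exact h5

lemma hit_two {m κ h : ℤ} (hm : 0 < m) (hh : 0 < h) (hme : Even m)
    (hκt : m ∣ 2 * κ - 2 * h) (h2 : m ≤ 2 * h * h) :
    Hit m (κ - 1) (κ + 1) (2 * h) (2 * h) := by
  intro A B
  obtain ⟨i, q, h1, h2, h3, h4, w, hw⟩ := hitline (c := 2 * h) (K := h) (M := m) (w := 2 * h)
    (by linarith) hm h2 le_rfl (2 * h * ((A + 1) / 2)) B
  obtain ⟨μ, hμ⟩ := hme
  have e1 := Int.emod_add_mul_ediv (A + 1) 2
  have e2 := Int.emod_nonneg (A + 1) (by norm_num : (2 : ℤ) ≠ 0)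
  have e3 := Int.emod_lt_of_pos (A + 1) (by norm_num : (0 : ℤ) < 2)
  obtain ⟨z, hz⟩ := hκt
  refine ⟨2 * ((A + 1) / 2 + i), q, by linarith, by linarith, h3, h4, ?_⟩
  have hq : q = 2 * (h * ((A + 1) / 2) + h * i + μ * w) := by
    rw [hμ] at hw; linarith
  refine ⟨(A + 1) / 2 + i + (h * ((A + 1) / 2) + h * i + μ * w),
    (A + 1) / 2 + i - (h * ((A + 1) / 2) + h * i + μ * w), by ring, by rw [hq]; ring, ?_⟩
  refine ⟨z * ((A + 1) / 2 + i) - w, ?_⟩
  linear_combination ((A + 1) / 2 + i) * hz + w * hμ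

lemma sufficiency_cond {G : Type*} [AddCommGroup G] {n m s : ℕ} (hn : 2 ≤ n) (hm : 0 < m)
    (e : G ≃+ ZMod n × ZMod (n * m)) (h : Cond ((2 * s + 1) / n) m) :
    ∃ a b : G, Span2 a b s := by
  set t := (2 * s + 1) / n with ht
  have hnt : n * t ≤ 2 * s + 1 := Nat.mul_div_le _ _
  have hntZ : (n : ℤ) * t ≤ 2 * s + 1 := by exact_mod_cast hnt
  have hnZ : (0 : ℤ) < n := by exact_mod_cast (by omega : 0 < n)
  have hmZ : (0 : ℤ) < m := by exact_mod_cast hm
  rcases h with ⟨⟨r, hr⟩, h2⟩ | ⟨⟨h, hh⟩, j, hj, hcase⟩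
  · -- odd case
    have hrZ : (t : ℤ) = 2 * r + 1 := by exact_mod_cast hr
    have h2Z : 2 * (m : ℤ) ≤ (2 * r + 1) * t := by
      have : 2 * (m : ℤ) < (t : ℤ) ^ 2 := by exact_mod_cast h2
      rw [← hrZ, ← pow_two]; exact this.le
    have hH := hit_one (m := m) (r := r) (t := t) hmZ (by positivity) hrZ.ge h2Z
    exact span_of_cover e s 1 1 r (r + 1) (by ring) (cover_of_hit hnZ hntZ hH)
  · have hth : t = 2 * h := by omega
    have hthZ : (t : ℤ) = 2 * h := by exact_mod_cast hth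
    have htt : t ^ 2 = 4 * (h * h) := by rw [hth]; ring
    have hh0 : 0 < h := by
      rcases Nat.eq_zero_or_pos h with h0 | h0
      · subst h0; omega
      · exact h0
    have hhZ : (0 : ℤ) < h := by exact_mod_cast hh0
    have hmj : m + j = 2 * (h * h) := by omega
    have hmle : (m : ℤ) ≤ 2 * h * h := by
      have : m ≤ 2 * (h * h) := by omega
      have : (m : ℤ) ≤ 2 * ((h : ℤ) * h) := by exact_mod_cast this
      linarith
    -- the two-step lattice
    have two : ∀ κ : ℤ, Even κ → Even m → (m : ℤ) ∣ 2 * κ - 2 * h → ∃ a b : G, Span2 a b s := by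
      intro κ hκ hme hd
      obtain ⟨η, hη⟩ := hκ
      have hH := hit_two (m := m) (κ := κ) (h := h) hmZ hhZ (by exact_mod_cast hme) hd hmle
      rw [← hthZ] at hH
      exact span_of_cover e s η (η + 1) (κ - 1) (κ + 1) (by rw [hη]; ring)
        (cover_of_hit hnZ hntZ hH)
    have caseA : 4 ∣ t → 2 ∣ j → ∃ a b : G, Span2 a b s := by
      intro h4 hj2
      have hhe : Even h := by
        obtain ⟨k, hk⟩ := h4
        exact ⟨k, by omega⟩
      have hme : Even m := by
        obtain ⟨k, hk⟩ := hj2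
        exact ⟨h * h - k, by omega⟩
      exact two h (by exact_mod_cast hhe) hme ⟨0, by ring⟩
    rcases hcase with hc | hc | ⟨hc1, hc2⟩
    · -- `t ≤ 2 j`
      have hr : ((h - 1 : ℕ) : ℤ) = (h : ℤ) - 1 := by
        have : 1 ≤ h := hh0
        push_cast [Nat.cast_sub this]; ring
      have h2Z : 2 * (m : ℤ) ≤ (2 * ((h - 1 : ℕ) : ℤ) + 1) * t := by
        rw [hr, hthZ]
        have h1 : 2 * (m : ℤ) + 2 * j = 4 * (h * h) := by
          have : 2 * m + 2 * j = 4 * (h * h) := by omega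
          exact_mod_cast this
        have h2 : (t : ℤ) ≤ 2 * j := by exact_mod_cast hc
        rw [hthZ] at h2
        nlinarith
      have hH := hit_one (m := m) (r := ((h - 1 : ℕ) : ℤ)) (t := t) hmZ (by positivity)
        (by rw [hr, hthZ]; linarith) h2Z
      exact span_of_cover e s 1 1 _ _ (by ring) (cover_of_hit hnZ hntZ hH)
    · by_cases h4 : 4 ∣ t
      · exact caseA h4 (dvd_trans (by norm_num) hc)
      · have hodd : Odd h := by
          rw [← Nat.not_even_iff_odd]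
          rintro ⟨k, hk⟩
          exact h4 ⟨k, by omega⟩
        obtain ⟨k, hk⟩ := hc
        obtain ⟨l, hl⟩ := hodd
        have hhh : h * h = 2 * (2 * (l * l) + 2 * l) + 1 := by rw [hl]; ring
        obtain ⟨μ, hμ⟩ : ∃ μ, m = 2 * μ := ⟨h * h - 2 * k, by omega⟩
        have hμodd : Odd μ := by
          rw [← Nat.not_even_iff_odd]
          rintro ⟨a, ha⟩
          omega
        refine two ((h : ℤ) + μ) ?_ ⟨μ, by omega⟩ ⟨1, ?_⟩
        · have : Even (h + μ) := (Nat.odd_iff.mpr (by omega) : Odd h).add_odd hμodd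
          exact_mod_cast this
        · rw [hμ]; push_cast; ring
    · exact caseA hc1 hc2

lemma sufficiency_special {G : Type*} [AddCommGroup G] {n m s : ℕ} (hn : 2 ≤ n) (hm : 0 < m)
    (e : G ≃+ ZMod n × ZMod (n * m)) (hno : Odd n) (hdvd : n ∣ s + 1)
    (h : 2 * m = ((2 * s + 1) / n) ^ 2 + 1) :
    ∃ a b : G, Span2 a b s := by
  obtain ⟨w, hw⟩ := hdvd
  have hw0 : 0 < w := by
    rcases Nat.eq_zero_or_pos w with h0 | h0
    · subst h0; omega
    · exact h0
  have hn0 : 0 < n := by omega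
  have ht : (2 * s + 1) / n = 2 * w - 1 := by
    apply Nat.div_eq_of_lt_le
    · have : (2 * w - 1) * n = 2 * (n * w) - n := by
        rw [Nat.sub_mul, one_mul]; ring_nf
      omega
    · have : (2 * w - 1 + 1) * n = 2 * (n * w) := by
        rw [Nat.sub_add_cancel (by omega)]; ring
      omega
  rw [ht] at h
  obtain ⟨r, rfl⟩ : ∃ r, w = r + 1 := ⟨w - 1, by omega⟩
  have ht' : 2 * (r + 1) - 1 = 2 * r + 1 := by omega
  rw [ht'] at h
  have hsZ : (s : ℤ) + 1 = n * (r + 1) := by exact_mod_cast hw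
  have hnZ : (0 : ℤ) < n := by exact_mod_cast hn0
  have hmZ : (0 : ℤ) < m := by exact_mod_cast hm
  have hMZ : 2 * (m : ℤ) = (2 * r + 1) ^ 2 + 1 := by exact_mod_cast h
  have hrZ : (0 : ℤ) ≤ r := by positivity
  refine span_of_cover e s 1 1 r (r + 1) (by ring) (cover_of_rot ?_)
  intro P Q hPQ
  -- column windows
  have win0 : ∀ P p : ℤ, P % n = 0 → P / n - r ≤ p → p < P / n - r + (2 * r + 1) →
      |P - n * p| ≤ s := by
    intro P p h0 h1 h2
    have e1 := Int.emod_add_mul_ediv P n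
    rw [h0, zero_add] at e1
    have f1 : (n : ℤ) * (P / n - r) ≤ n * p := mul_le_mul_of_nonneg_left h1 hnZ.le
    have f2 : (n : ℤ) * p ≤ n * (P / n + r) := mul_le_mul_of_nonneg_left (by linarith) hnZ.le
    rw [abs_le]
    constructor <;> nlinarith
  have win1 : ∀ P p : ℤ, P % n ≠ 0 → P / n - r ≤ p → p < P / n - r + (2 * r + 2) →
      |P - n * p| ≤ s := by
    intro P p h0 h1 h2
    have e1 := Int.emod_add_mul_ediv P n
    have e2 := Int.emod_nonneg P hnZ.ne'
    have e3 := Int.emod_lt_of_pos P hnZ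
    have e4 : 1 ≤ P % n := by omega
    have f1 : (n : ℤ) * (P / n - r) ≤ n * p := mul_le_mul_of_nonneg_left h1 hnZ.le
    have f2 : (n : ℤ) * p ≤ n * (P / n + r + 1) := mul_le_mul_of_nonneg_left (by linarith) hnZ.le
    rw [abs_le]
    constructor <;> nlinarith
  have hc : (0 : ℤ) < 2 * r + 1 := by linarith
  by_cases hP : P % n = 0
  · by_cases hQ : Q % n = 0
    · -- both divisible
      set A := P / n - r with hA
      set B := Q / n - r with hB
      have hAB : Even (A - B) := by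
        have e1 := Int.emod_add_mul_ediv P n
        have e2 := Int.emod_add_mul_ediv Q n
        rw [hP, zero_add] at e1
        rw [hQ, zero_add] at e2
        have : P - Q = n * (A - B) := by rw [hA, hB]; linarith
        rw [this, Int.even_mul] at hPQ
        rcases hPQ with h1 | h1
        · exfalso
          have : Even n := by exact_mod_cast h1
          exact (Nat.not_even_iff_odd.mpr hno) this
        · exact h1
      set D := (B + 2 * r - (2 * r + 1) * A) % (2 * m) with hD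
      have hD0 : 0 ≤ D := Int.emod_nonneg _ (by linarith)
      have hD1 : D < 2 * m := Int.emod_lt_of_pos _ (by linarith)
      have hDe := Int.emod_add_mul_ediv (B + 2 * r - (2 * r + 1) * A) (2 * m)
      rw [← hD] at hDe
      have hD2 : D ≠ (2 * r + 1) ^ 2 := by
        intro hcon
        obtain ⟨k, hk⟩ := hAB
        have : (2 : ℤ) ∣ 1 := by
          refine ⟨-(k) + r - r * A - m * ((B + 2 * r - (2 * r + 1) * A) / (2 * m))
            - (2 * r * r + 2 * r), ?_⟩
          have h1 : D = 2 * (2 * r * r + 2 * r) + 1 := by rw [hcon]; ring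
          linarith
        norm_num at this
      have hD3 : D < (2 * r + 1) * (2 * r + 1) := by
        have : D < (2 * r + 1) ^ 2 + 1 := by rw [← hMZ]; exact hD1
        rcases lt_or_eq_of_le (Int.lt_add_one_iff.mp this) with h1 | h1
        · rw [pow_two] at h1; exact h1
        · exact absurd h1 hD2
      have e1 := Int.emod_add_mul_ediv D (2 * r + 1)
      have e2 := Int.emod_nonneg D hc.ne'
      have e3 := Int.emod_lt_of_pos D hc
      refine ⟨A + D / (2 * r + 1), B + 2 * r - D % (2 * r + 1), ?_, ?_, inL_of_dvd ?_⟩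
      · apply win0 P _ hP
        · have := Int.ediv_nonneg hD0 hc.le
          linarith
        · have : (2 * (r : ℤ) + 1) * (D / (2 * r + 1)) < (2 * r + 1) * (2 * r + 1) := by linarith
          have := lt_of_mul_lt_mul_left this hc.le
          linarith
      · apply win0 Q _ hQ
        · linarith
        · linarith
      · refine ⟨(B + 2 * r - (2 * r + 1) * A) / (2 * m), ?_⟩
        linarith
    · -- `t` columns, `t + 1` rows
      set A := P / n - r with hA
      set B := Q / n - r with hB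
      set D := (B + (2 * r + 1) - (2 * r + 1) * A) % (2 * m) with hD
      have hD0 : 0 ≤ D := Int.emod_nonneg _ (by linarith)
      have hD1 : D < 2 * m := Int.emod_lt_of_pos _ (by linarith)
      have hDe := Int.emod_add_mul_ediv (B + (2 * r + 1) - (2 * r + 1) * A) (2 * m)
      rw [← hD] at hDe
      by_cases hD2 : D = (2 * r + 1) ^ 2
      · refine ⟨A + 2 * r, B, ?_, ?_, inL_of_dvd ?_⟩
        · apply win0 P _ hP
          · linarith
          · linarith
        · apply win1 Q _ hQ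
          · linarith
          · linarith
        · refine ⟨(B + (2 * r + 1) - (2 * r + 1) * A) / (2 * m), ?_⟩
          rw [hD2] at hDe
          linarith
      · have hD3 : D < (2 * r + 1) * (2 * r + 1) := by
          have : D < (2 * r + 1) ^ 2 + 1 := by rw [← hMZ]; exact hD1
          rcases lt_or_eq_of_le (Int.lt_add_one_iff.mp this) with h1 | h1
          · rw [pow_two] at h1; exact h1
          · exact absurd h1 hD2
        have e1 := Int.emod_add_mul_ediv D (2 * r + 1)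
        have e2 := Int.emod_nonneg D hc.ne'
        have e3 := Int.emod_lt_of_pos D hc
        refine ⟨A + D / (2 * r + 1), B + (2 * r + 1) - D % (2 * r + 1), ?_, ?_, inL_of_dvd ?_⟩
        · apply win0 P _ hP
          · have := Int.ediv_nonneg hD0 hc.le
            linarith
          · have : (2 * (r : ℤ) + 1) * (D / (2 * r + 1)) < (2 * r + 1) * (2 * r + 1) := by linarith
            have := lt_of_mul_lt_mul_left this hc.le
            linarith
        · apply win1 Q _ hQ
          · linarith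
          · linarith
        · refine ⟨(B + (2 * r + 1) - (2 * r + 1) * A) / (2 * m), ?_⟩
          linarith
  · -- `t + 1` columns, `t` rows
    obtain ⟨i, q, h1, h2, h3, h4, h5⟩ := hitline (c := 2 * r + 1) (K := 2 * r + 2) (M := 2 * m)
      (w := 2 * r + 1) hc (by linarith) (by rw [hMZ]; nlinarith) le_rfl
      ((2 * r + 1) * (P / n - r)) (Q / n - r)
    refine ⟨P / n - r + i, q, ?_, ?_, inL_of_dvd ?_⟩
    · exact win1 P _ hP (by linarith) (by linarith)
    · by_cases hQ : Q % n = 0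
      · exact win0 Q _ hQ h3 h4
      · exact win1 Q _ hQ h3 (by linarith)
    · have : q - (2 * (r : ℤ) + 1) * (P / n - r + i)
        = q - (2 * r + 1) * (P / n - r) - (2 * r + 1) * i := by ring
      rw [this]; exact h5


/-- The full characterization. -/
theorem main (s n₁ n₂ : ℕ) (h₁ : 2 ≤ n₁) (h₂ : n₁ ∣ n₂) (h₃ : 0 < n₂)
    (G : Type*) [AddCommGroup G] (e : G ≃+ ZMod n₁ × ZMod n₂) :
    phi G s = 2 ↔
      Cond ((2 * s + 1) / n₁) (n₂ / n₁) ∨
        (Odd n₁ ∧ n₁ ∣ s + 1 ∧ 2 * (n₂ / n₁) = ((2 * s + 1) / n₁) ^ 2 + 1) := by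
  obtain ⟨m, rfl⟩ := h₂
  have hn0 : 0 < n₁ := by omega
  have hm : 0 < m := Nat.pos_of_mul_pos_left h₃
  rw [Nat.mul_div_cancel_left _ hn0, phi_eq_two_iff h₁ e s]
  constructor
  · rintro ⟨a, b, hab⟩
    obtain ⟨α, β, hco, hc⟩ := cover_of_span h₁ e a b s hab
    exact necessity h₁ hm α β hco hc
  · rintro (h | ⟨h1, h2, h3⟩)
    · exact sufficiency_cond h₁ hm e h
    · exact sufficiency_special h₁ hm e h1 h2 h3

end Pool.Agent.Helper32.RankTwo
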